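import Mathlib
import Pool.Agent.H93S.RB.Ind
set_option autoImplicit false

/-!
# Stein's restriction conjecture: densities which depend on the norms of groups of coordinates

Let `2 ≤ s < n`. In an orthonormal basis of `ℝ^n` let the coordinates be divided into `s` groups.
A density on the unit sphere is block radial if it depends only on the Euclidean norms of the groups
and, for the groups with only one member, on this coordinate. If `W_1, …, W_t` are the subspaces
spanned by the groups with at least two members, these are the densities which are invariant under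
`O(W_1) × … × O(W_t)`. We consider all superpositions `g(x) = ∑_j e^{i⟨η_j, x⟩} h_j(x)` with bounded
measurable block radial `h_j`, `|h_j| ≤ M_j`, `∑ M_j < ∞`; no smoothness, and the basis and the
groups may depend on `j`.

* For `s = 2`, in particular for all bounded densities invariant under `O(m) × O(n-m)`, the Fourier
  transform of `g dσ` is in `L^q(ℝ^n)` for every `q > 2n/(n-1)`, the full range of the conjecture,
  with norm at most `C ∑ M_j`.
* For every `s` this holds for `q > 2 + 4/(2n-s-1)`.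
* Every estimate `L^∞ → L^P` for the sphere of `ℝ^s` gives the estimate for these densities on the
  sphere of `ℝ^n` if `(q - 2)((n-s)/2 + 1/(P-2)) > 1`; so Stein's conjecture in `ℝ^s` implies it for
  these densities in every `ℝ^n`, `n > s`, in the full range `q > 2n/(n-1)`.

If only one group has more than one member, this is the starting result `RidgeDensities` (densities
`F(P x)`, `P` a projection of rank `s - 1`). Its proof (`Pool/Agent/TH335/RF`) is iterated: a group
with `k` members is replaced by one coordinate, and the dimension decreases by `k - 1`.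
-/

namespace Pool.Agent.Results.MP_6cbfb8_an.BlockRadialDensities

open MeasureTheory Set Metric Complex
open Pool.Agent.H93S.RB
open Pool.Agent.TH335.RF (RT Hyp hyp_one hyp_of_rest stein_tomas mink)
open Pool.Agent.H438R2.PD (T_meas' T_comp)
open Pool.Agent.H789R2.FR (E sg T sg_finite)
open scoped ENNReal RealInnerProductSpace

/-- surface measure on the unit sphere -/
noncomputable def sigma (n : ℕ) : Measure (sphere (0 : E n) 1) := (volume : Measure (E n)).toSphere

/-- the Fourier transform of the measure `g dσ` -/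
noncomputable def ft {n : ℕ} (g : sphere (0 : E n) 1 → ℂ) (ξ : E n) : ℂ :=
  ∫ x, Complex.exp (-(2 * Real.pi * ⟪(x : E n), ξ⟫ : ℝ) * I) * g x ∂(sigma n)

/-- Stein's estimate for the unit sphere of `ℝ^n` and the exponent `p`: the Fourier transform maps
densities bounded by one to a bounded subset of `L^p`. -/
def Stein (n : ℕ) (p : ℝ) : Prop := ∃ C : ℝ, ∀ g : sphere (0 : E n) 1 → ℂ, Measurable g →
  (∀ x, ‖g x‖ ≤ 1) → eLpNorm (ft g) (ENNReal.ofReal p) ≤ ENNReal.ofReal C

/-- The coordinates in the orthonormal basis `e` are divided into the groups `c i = a`, `a : Fin s`.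
The density `h` is block radial: `h x = h x'` if the coordinates of `x` and `x'` agree in all groups
with only one member, and the Euclidean norms of all groups of coordinates agree. -/
def BlockRadial {n s : ℕ} (e : OrthonormalBasis (Fin n) ℝ (E n)) (c : Fin n → Fin s)
    (h : sphere (0 : E n) 1 → ℂ) : Prop :=
  ∀ x x' : sphere (0 : E n) 1,
    (∀ i, (∀ j, c j = c i → j = i) → ⟪e i, (x : E n)⟫ = ⟪e i, (x' : E n)⟫) →
    (∀ a : Fin s, ∑ i with c i = a, ⟪e i, (x : E n)⟫ ^ 2 =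
      ∑ i with c i = a, ⟪e i, (x' : E n)⟫ ^ 2) → h x = h x'

/-- The density `g` on the unit sphere of `ℝ^n` is a superposition `∑_j e^{i⟨η_j, x⟩} h_j(x)`: each
`h_j` is measurable and block radial for `s` nonempty groups of coordinates in some orthonormal
basis, and `|h_j| ≤ M_j`. -/
def Super {n : ℕ} (s : ℕ) (M : ℕ → ℝ) (g : sphere (0 : E n) 1 → ℂ) : Prop :=
  ∃ (e : ℕ → OrthonormalBasis (Fin n) ℝ (E n)) (c : ℕ → Fin n → Fin s) (η : ℕ → E n)
    (h : ℕ → sphere (0 : E n) 1 → ℂ),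
    (∀ j, Function.Surjective (c j)) ∧ (∀ j, Measurable (h j)) ∧ (∀ j x, ‖h j x‖ ≤ M j) ∧
    (∀ j, BlockRadial (e j) (c j) (h j)) ∧
    ∀ᵐ x ∂(sigma n), g x = ∑' j, Complex.exp ((⟪η j, (x : E n)⟫ : ℝ) * I) * h j x

/-- The estimate with exponent `q` for all the densities of this form. -/
def Holds (n s : ℕ) (q : ℝ) : Prop := ∃ C : ℝ, 0 < C ∧ ∀ (M : ℕ → ℝ), Summable M →
  ∀ g : sphere (0 : E n) 1 → ℂ, Super s M g →
    MemLp (ft g) (ENNReal.ofReal q) ∧
    eLpNorm (ft g) (ENNReal.ofReal q) ≤ ENNReal.ofReal (C * ∑' j, M j)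

/-! ### Proofs -/

theorem ft_eq {n : ℕ} (g : sphere (0 : E n) 1 → ℂ) (G : E n → ℂ) (hG : Measurable G)
    (Λ : E n ≃ₗᵢ[ℝ] E n) (hg : ∀ᵐ x ∂(sigma n), g x = G (Λ x)) (ξ : E n) :
    ft g ξ = T G ((2 * Real.pi) • Λ ξ) := by
  rw [← map_smul, ← T_comp]
  unfold T ft
  have m1 : Measurable fun w : E n =>
      Complex.exp (-((⟪(2 * Real.pi) • ξ, w⟫ : ℝ) : ℂ) * I) * G (Λ w) := by
    have h2 : Measurable fun z : E n => (⟪(2 * Real.pi) • ξ, z⟫ : ℝ) :=
      (by fun_prop : Continuous _).measurable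
    exact (Complex.measurable_exp.comp ((Complex.measurable_ofReal.comp h2).neg.mul_const I)).mul
      (hG.comp Λ.continuous.measurable)
  simp only [sg]
  rw [integral_map measurable_subtype_coe.aemeasurable m1.aestronglyMeasurable]
  apply integral_congr_ae
  filter_upwards [hg] with x hx
  rw [hx, real_inner_smul_left, real_inner_comm]

theorem scale {n : ℕ} (f : E n → ℝ≥0∞) (hf : Measurable f) :
    ∫⁻ ξ : E n, f ((2 * Real.pi) • ξ) =
      ENNReal.ofReal ((2 * Real.pi) ^ n)⁻¹ * ∫⁻ z, f z := by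
  have h2pi : (2 * Real.pi) ≠ 0 := by positivity
  have h3 := Measure.map_addHaar_smul (volume : Measure (E n)) h2pi
  have h4 : ∫⁻ x : E n, f x ∂(Measure.map ((2 * Real.pi) • · : E n → E n) volume) =
      ∫⁻ ξ : E n, f ((2 * Real.pi) • ξ) := lintegral_map hf (measurable_const_smul _)
  rw [← h4, h3, lintegral_smul_measure, smul_eq_mul, finrank_euclideanSpace_fin,
    abs_of_nonneg (by positivity)]

theorem TG_meas {n : ℕ} (G : E n → ℂ) (hG : Measurable G) (Λ : E n ≃ₗᵢ[ℝ] E n) :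
    Measurable fun ξ : E n => T G ((2 * Real.pi) • Λ ξ) := by
  have hTm : Measurable (T G) := T_meas' G hG
  have hm1 : Measurable fun ξ : E n => T G ((2 * Real.pi) • ξ) := by
    have h1 : Measurable fun x : E n => (2 * Real.pi) • x := measurable_const_smul _
    have h2 := Measurable.comp hTm h1
    exact h2
  have h2 := Measurable.comp hm1 Λ.continuous.measurable
  exact h2

theorem ft_int_le {n : ℕ} (q : ℝ) (g : sphere (0 : E n) 1 → ℂ) (G : E n → ℂ)
    (hG : Measurable G) (Λ : E n ≃ₗᵢ[ℝ] E n) (hg : ∀ᵐ x ∂(sigma n), g x = G (Λ x)) :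
    Measurable (ft g) ∧ ∫⁻ ξ, ‖ft g ξ‖ₑ ^ q ≤ ∫⁻ z, ‖T G z‖ₑ ^ q := by
  have hfun : ft g = fun ξ => T G ((2 * Real.pi) • Λ ξ) := funext fun ξ => ft_eq g G hG Λ hg ξ
  have hTm : Measurable (T G) := T_meas' G hG
  have hmeas : Measurable fun z => ‖T G z‖ₑ ^ q := hTm.enorm.pow_const q
  have hm1 : Measurable fun ξ : E n => ‖T G ((2 * Real.pi) • ξ)‖ₑ ^ q := by
    have h1 : Measurable fun x : E n => (2 * Real.pi) • x := measurable_const_smul _
    exact hmeas.comp h1
  refine ⟨by rw [hfun]; exact TG_meas G hG Λ, ?_⟩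
  rw [hfun]
  have h1 : ∫⁻ ξ, ‖T G ((2 * Real.pi) • Λ ξ)‖ₑ ^ q = ∫⁻ ξ, ‖T G ((2 * Real.pi) • ξ)‖ₑ ^ q :=
    Λ.measurePreserving.lintegral_comp hm1
  rw [h1, scale (fun z => ‖T G z‖ₑ ^ q) hmeas]
  have h5 : ENNReal.ofReal ((2 * Real.pi) ^ n)⁻¹ ≤ 1 := by
    rw [ENNReal.ofReal_le_one]
    apply inv_le_one_of_one_le₀
    apply one_le_pow₀
    linarith [Real.pi_gt_three]
  calc _ ≤ 1 * ∫⁻ z, ‖T G z‖ₑ ^ q := by gcongr
    _ = _ := one_mul _

theorem ft_mod {n : ℕ} (g : sphere (0 : E n) 1 → ℂ) (η ξ : E n) :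
    ft (fun x => Complex.exp ((⟪η, (x : E n)⟫ : ℝ) * I) * g x) ξ =
      ft g (ξ - (2 * Real.pi)⁻¹ • η) := by
  unfold ft
  refine integral_congr_ae (Filter.Eventually.of_forall fun x => ?_)
  simp only
  rw [← mul_assoc, ← Complex.exp_add, inner_sub_right, real_inner_smul_right,
    real_inner_comm (x : E n) η]
  have hpi := Real.pi_ne_zero
  congr 2
  push_cast
  field_simp
  ring

theorem rt_of_stein (n : ℕ) (P : ℝ) (hP : 0 < P) (h : Stein n P) : RT n P := by
  obtain ⟨C, hC⟩ := h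
  set C' : ℝ := |C| + 1 with hC'
  have hC'0 : 0 < C' := by positivity
  have h2pi : 0 < (2 * Real.pi) ^ n := by positivity
  refine ⟨(2 * Real.pi) ^ n * C' ^ P, by positivity, fun G hG hb => ?_⟩
  set g : sphere (0 : E n) 1 → ℂ := fun x => G x with hg
  have hgm : Measurable g := hG.comp measurable_subtype_coe
  have h1 := hC g hgm (fun x => hb _)
  have hfun : ft g = fun ξ => T G ((2 * Real.pi) • ξ) := by
    funext ξ
    have h2 := ft_eq g G hG (LinearIsometryEquiv.refl ℝ (E n)) (Filter.Eventually.of_forall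
      fun x => rfl) ξ
    exact h2
  rw [eLpNorm_eq_lintegral_rpow_enorm_toReal (by simpa using hP) ENNReal.ofReal_ne_top,
    ENNReal.toReal_ofReal hP.le, hfun] at h1
  have hmeas : Measurable fun z => ‖T G z‖ₑ ^ P := (T_meas' G hG).enorm.pow_const P
  rw [scale (fun z => ‖T G z‖ₑ ^ P) hmeas] at h1
  have h2 : ENNReal.ofReal ((2 * Real.pi) ^ n)⁻¹ * ∫⁻ z, ‖T G z‖ₑ ^ P ≤
      ENNReal.ofReal (C' ^ P) := by
    have h3 := ENNReal.rpow_le_rpow h1 hP.le
    rw [← ENNReal.rpow_mul, one_div_mul_cancel hP.ne', ENNReal.rpow_one] at h3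
    refine h3.trans ?_
    rw [← ENNReal.ofReal_rpow_of_nonneg hC'0.le hP.le]
    apply ENNReal.rpow_le_rpow _ hP.le
    apply ENNReal.ofReal_le_ofReal
    rw [hC']
    linarith [le_abs_self C]
  calc ∫⁻ z, ‖T G z‖ₑ ^ P = ENNReal.ofReal ((2 * Real.pi) ^ n) *
        (ENNReal.ofReal ((2 * Real.pi) ^ n)⁻¹ * ∫⁻ z, ‖T G z‖ₑ ^ P) := by
        rw [← mul_assoc, ← ENNReal.ofReal_mul h2pi.le, mul_inv_cancel₀ h2pi.ne',
          ENNReal.ofReal_one, one_mul]
    _ ≤ ENNReal.ofReal ((2 * Real.pi) ^ n) * ENNReal.ofReal (C' ^ P) := by gcongr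
    _ = _ := by rw [← ENNReal.ofReal_mul h2pi.le]

/-- the extension of a density to the whole space -/
noncomputable def exd {n : ℕ} (h : sphere (0 : E n) 1 → ℂ) (x : E n) : ℂ :=
  Function.extend Subtype.val h 0 (‖x‖⁻¹ • x)

theorem exd_meas {n : ℕ} (h : sphere (0 : E n) 1 → ℂ) (hh : Measurable h) : Measurable (exd h) := by
  unfold exd
  have h1 : MeasurableEmbedding (Subtype.val : sphere (0 : E n) 1 → E n) :=
    MeasurableEmbedding.subtype_coe isClosed_sphere.measurableSet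
  have h2 : Measurable (Function.extend (Subtype.val : sphere (0 : E n) 1 → E n) h 0) :=
    h1.measurable_extend hh measurable_const
  have h3 : Measurable fun x : E n => ‖x‖⁻¹ • x := measurable_norm.inv.smul measurable_id
  exact h2.comp h3

theorem exd_le {n : ℕ} (h : sphere (0 : E n) 1 → ℂ) (M : ℝ) (hM : 0 ≤ M) (hh : ∀ x, ‖h x‖ ≤ M)
    (x : E n) : ‖exd h x‖ ≤ M := by
  unfold exd
  by_cases hx : ∃ y : sphere (0 : E n) 1, (y : E n) = ‖x‖⁻¹ • x
  · obtain ⟨y, hy⟩ := hx
    rw [← hy, Subtype.val_injective.extend_apply]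
    exact hh y
  · rw [Function.extend_apply' _ _ _ hx]
    simpa using hM

theorem exd_of_ne {n : ℕ} (h : sphere (0 : E n) 1 → ℂ) (x : E n)
    (hm : ‖x‖⁻¹ • x ∈ sphere (0 : E n) 1) : exd h x = h ⟨‖x‖⁻¹ • x, hm⟩ := by
  unfold exd
  exact Subtype.val_injective.extend_apply h 0 (⟨‖x‖⁻¹ • x, hm⟩ : sphere (0 : E n) 1)

theorem mem_sph {n : ℕ} (x : E n) (hx : x ≠ 0) : ‖x‖⁻¹ • x ∈ sphere (0 : E n) 1 := by
  rw [mem_sphere_zero_iff_norm, norm_smul, norm_inv, norm_norm,
    inv_mul_cancel₀ (norm_ne_zero_iff.2 hx)]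

theorem exd_sphere {n : ℕ} (h : sphere (0 : E n) 1 → ℂ) (x : sphere (0 : E n) 1) :
    exd h (x : E n) = h x := by
  have h1 : ‖(x : E n)‖ = 1 := by simp
  unfold exd
  rw [h1, inv_one, one_smul]
  exact Subtype.val_injective.extend_apply h 0 x

theorem dep_exd {n s : ℕ} (e : OrthonormalBasis (Fin n) ℝ (E n)) (c : Fin n → Fin s)
    (h : sphere (0 : E n) 1 → ℂ) (hh : BlockRadial e c h) (a : ℂ) :
    Dep c (fun z => a * exd h (e.repr.symm z)) := by
  intro z z' h1 h2
  simp only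
  congr 1
  have hnorm : ‖z‖ = ‖z'‖ := by
    have h3 : ‖z‖ ^ 2 = ‖z'‖ ^ 2 := by
      rw [EuclideanSpace.norm_eq, EuclideanSpace.norm_eq, Real.sq_sqrt (by positivity),
        Real.sq_sqrt (by positivity)]
      simp only [Real.norm_eq_abs, sq_abs]
      rw [← Finset.sum_fiberwise Finset.univ c, ← Finset.sum_fiberwise Finset.univ c
        (fun i => z' i ^ 2)]
      exact Finset.sum_congr rfl fun a _ => h2 a
    exact (sq_eq_sq₀ (norm_nonneg _) (norm_nonneg _)).1 h3
  by_cases hz : z = 0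
  · have hz' : z' = 0 := by
      rw [← norm_eq_zero, ← hnorm, hz, norm_zero]
    rw [hz, hz']
  · have hz' : z' ≠ 0 := by
      intro h3
      apply hz
      rw [← norm_eq_zero, hnorm, h3, norm_zero]
    have g1 : e.repr.symm z ≠ 0 := by
      intro h3
      apply hz
      rw [← e.repr.apply_symm_apply z, h3, map_zero]
    have g2 : e.repr.symm z' ≠ 0 := by
      intro h3
      apply hz'
      rw [← e.repr.apply_symm_apply z', h3, map_zero]
    rw [exd_of_ne h _ (mem_sph _ g1), exd_of_ne h _ (mem_sph _ g2)]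
    have hin : ∀ (w : E n) (i : Fin n), ⟪e i, ‖e.repr.symm w‖⁻¹ • e.repr.symm w⟫ =
        ‖w‖⁻¹ * w i := by
      intro w i
      rw [LinearIsometryEquiv.norm_map, real_inner_smul_right, ← e.repr_apply_apply,
        e.repr.apply_symm_apply]
    apply hh
    · intro i hi
      simp only [hin]
      rw [hnorm, h1 i hi]
    · intro a
      simp only [hin, mul_pow]
      rw [← Finset.mul_sum, ← Finset.mul_sum, hnorm, h2 a]

/-- one term of the superposition -/
theorem one_term {n s : ℕ} (q : ℝ) (hq : 0 < q) (C : ℝ) (hC : 0 < C)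
    (hest : ∀ c : Fin n → Fin s, Function.Surjective c → ∀ G : E n → ℂ, Measurable G →
      (∀ x, ‖G x‖ ≤ 1) → Dep c G → ∫⁻ z, ‖T G z‖ₑ ^ q ≤ ENNReal.ofReal C)
    (e : OrthonormalBasis (Fin n) ℝ (E n)) (c : Fin n → Fin s) (hc : Function.Surjective c)
    (η : E n) (h : sphere (0 : E n) 1 → ℂ) (hm : Measurable h) (M : ℝ) (hM0 : 0 ≤ M)
    (hM : ∀ x, ‖h x‖ ≤ M) (hB : BlockRadial e c h) :
    Measurable (ft fun x : sphere (0 : E n) 1 => Complex.exp ((⟪η, (x : E n)⟫ : ℝ) * I) * h x) ∧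
    (∫⁻ ξ, ‖ft (fun x : sphere (0 : E n) 1 =>
      Complex.exp ((⟪η, (x : E n)⟫ : ℝ) * I) * h x) ξ‖ₑ ^ q) ^ (1 / q) ≤
      ENNReal.ofReal (C ^ (1 / q) * M) := by
  set G : E n → ℂ := fun z => ((M⁻¹ : ℝ) : ℂ) * exd h (e.repr.symm z) with hG
  have hGm : Measurable G :=
    ((exd_meas h hm).comp e.repr.symm.continuous.measurable).const_mul _
  have hG1 : ∀ z, ‖G z‖ ≤ 1 := by
    intro z
    rw [hG]
    simp only [norm_mul, Complex.norm_real, Real.norm_of_nonneg (inv_nonneg.2 hM0)]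
    rcases hM0.eq_or_lt with h0 | h0
    · rw [← h0]; simp
    · rw [inv_mul_le_iff₀ h0, mul_one]
      exact exd_le h M hM0 hM _
  have hhG : ∀ x : sphere (0 : E n) 1, h x = (M : ℂ) * G (e.repr (x : E n)) := by
    intro x
    rw [hG]
    simp only [LinearIsometryEquiv.symm_apply_apply]
    rw [exd_sphere]
    rcases hM0.eq_or_lt with h0 | h0
    · have h1 := hM x
      rw [← h0] at h1
      have h2 : h x = 0 := norm_le_zero_iff.1 h1
      simp [h2]
    · rw [← mul_assoc, ← Complex.ofReal_mul, mul_inv_cancel₀ h0.ne', Complex.ofReal_one, one_mul]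
  obtain ⟨hm1, hint⟩ := ft_int_le q (fun x : sphere (0 : E n) 1 => G (e.repr (x : E n))) G hGm
    e.repr (Filter.Eventually.of_forall fun x => rfl)
  set g0 : sphere (0 : E n) 1 → ℂ := fun x => G (e.repr (x : E n)) with hg0
  have hfun : ft (fun x : sphere (0 : E n) 1 =>
      Complex.exp ((⟪η, (x : E n)⟫ : ℝ) * I) * h x) =
      fun ξ => (M : ℂ) * ft g0 (ξ - (2 * Real.pi)⁻¹ • η) := by
    funext ξ
    rw [← ft_mod]
    unfold ft
    rw [← integral_const_mul]
    refine integral_congr_ae (Filter.Eventually.of_forall fun x => ?_)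
    simp only [hg0]
    rw [hhG]
    ring
  have hsub : Measurable fun ξ : E n => ξ - (2 * Real.pi)⁻¹ • η :=
    measurable_id.sub_const _
  rw [hfun]
  refine ⟨(hm1.comp hsub).const_mul _, ?_⟩
  have h1 : ∫⁻ ξ, ‖(M : ℂ) * ft g0 (ξ - (2 * Real.pi)⁻¹ • η)‖ₑ ^ q ≤
      ENNReal.ofReal (M ^ q * C) := by
    calc ∫⁻ ξ, ‖(M : ℂ) * ft g0 (ξ - (2 * Real.pi)⁻¹ • η)‖ₑ ^ q
        = ∫⁻ ξ, ENNReal.ofReal (M ^ q) * ‖ft g0 (ξ - (2 * Real.pi)⁻¹ • η)‖ₑ ^ q := by
          refine lintegral_congr fun ξ => ?_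
          rw [enorm_mul, ENNReal.mul_rpow_of_nonneg _ _ hq.le, ← ofReal_norm (M : ℂ),
            Complex.norm_real, Real.norm_of_nonneg hM0, ENNReal.ofReal_rpow_of_nonneg hM0 hq.le]
      _ = ENNReal.ofReal (M ^ q) * ∫⁻ ξ, ‖ft g0 ξ‖ₑ ^ q := by
          rw [lintegral_const_mul' _ _ ENNReal.ofReal_ne_top]
          congr 1
          exact lintegral_sub_right_eq_self (fun ξ => ‖ft g0 ξ‖ₑ ^ q) ((2 * Real.pi)⁻¹ • η)
      _ ≤ ENNReal.ofReal (M ^ q) * ENNReal.ofReal C := by
          gcongr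
          exact hint.trans (hest c hc G hGm hG1 (dep_exd e c h hB _))
      _ = _ := by rw [← ENNReal.ofReal_mul (by positivity)]
  refine (ENNReal.rpow_le_rpow h1 (by positivity)).trans (le_of_eq ?_)
  rw [ENNReal.ofReal_rpow_of_nonneg (by positivity) (by positivity),
    Real.mul_rpow (by positivity) hC.le, ← Real.rpow_mul hM0, mul_one_div_cancel hq.ne',
    Real.rpow_one, mul_comm]

/-- the superposition -/
theorem holds_of {n s : ℕ} (hn : 1 ≤ n) (q : ℝ) (hq : 1 ≤ q) (h : Est s n q) : Holds n s q := by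
  obtain ⟨C, hC, hest⟩ := h
  have hq0 : 0 < q := by linarith
  refine ⟨C ^ (1 / q), by positivity, ?_⟩
  rintro M hM g ⟨e, c, η, F, hc, hFm, hF, hB, hg⟩
  have hM0 : ∀ j, 0 ≤ M j := fun j => by
    have hne : Nonempty (Fin n) := ⟨⟨0, by omega⟩⟩
    obtain ⟨i⟩ := hne
    have h1 : ((e j) i) ∈ sphere (0 : E n) 1 := by simp
    exact (norm_nonneg _).trans (hF j ⟨_, h1⟩)
  set gj : ℕ → sphere (0 : E n) 1 → ℂ := fun j x =>
    Complex.exp ((⟪η j, (x : E n)⟫ : ℝ) * I) * F j x with hgj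
  have hone := fun j => one_term q hq0 C hC hest (e j) (c j) (hc j) (η j) (F j) (hFm j) (M j)
    (hM0 j) (hF j) (hB j)
  have hfin : IsFiniteMeasure (sigma n) := by unfold sigma; infer_instance
  have hgjm : ∀ j, Measurable (gj j) := by
    intro j
    have h1 : Measurable fun x : E n => Complex.exp ((⟪η j, x⟫ : ℝ) * I) := by
      have h2 : Measurable fun x : E n => (⟪η j, x⟫ : ℝ) := by fun_prop
      exact Complex.measurable_exp.comp ((Complex.measurable_ofReal.comp h2).mul_const I)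
    exact (h1.comp measurable_subtype_coe).mul (hFm j)
  have hgjb : ∀ j x, ‖gj j x‖ ≤ M j := by
    intro j x
    rw [hgj]
    simp only [norm_mul, Complex.norm_exp_ofReal_mul_I, one_mul]
    exact hF j _
  have hsum : ∀ ξ, ft g ξ = ∑' j, ft (gj j) ξ := by
    intro ξ
    unfold ft
    have hen : ∀ (j : ℕ) (x : sphere (0 : E n) 1),
        ‖Complex.exp (-(2 * Real.pi * ⟪(x : E n), ξ⟫ : ℝ) * I) * gj j x‖ₑ ≤
          ENNReal.ofReal (M j) := by
      intro j x
      rw [← ofReal_norm]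
      apply ENNReal.ofReal_le_ofReal
      have h3 : -(((2 * Real.pi * ⟪(x : E n), ξ⟫ : ℝ)) : ℂ) * I =
          ((-(2 * Real.pi * ⟪(x : E n), ξ⟫) : ℝ) : ℂ) * I := by push_cast; ring
      rw [norm_mul, h3, Complex.norm_exp_ofReal_mul_I, one_mul]
      exact hgjb j x
    have hexm : Measurable fun x : sphere (0 : E n) 1 =>
        Complex.exp (-(2 * Real.pi * ⟪(x : E n), ξ⟫ : ℝ) * I) := by
      have h4 : Continuous fun x : sphere (0 : E n) 1 =>
        Complex.exp (-(2 * Real.pi * ⟪(x : E n), ξ⟫ : ℝ) * I) := by fun_prop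
      exact h4.measurable
    rw [← integral_tsum]
    · refine integral_congr_ae ?_
      filter_upwards [hg] with x hx
      rw [hx, ← tsum_mul_left]
    · exact fun j => (hexm.mul (hgjm j)).aestronglyMeasurable
    · have h5 : ∑' j, ∫⁻ x, ‖Complex.exp (-(2 * Real.pi * ⟪(x : E n), ξ⟫ : ℝ) * I) *
          gj j x‖ₑ ∂(sigma n) ≤ ∑' j, ENNReal.ofReal (M j) * sigma n univ := by
        apply ENNReal.tsum_le_tsum
        intro j
        calc _ ≤ ∫⁻ _x, ENNReal.ofReal (M j) ∂(sigma n) := lintegral_mono (hen j)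
          _ = _ := by rw [lintegral_const]
      refine (h5.trans_lt ?_).ne
      rw [ENNReal.tsum_mul_right, ← ENNReal.ofReal_tsum_of_nonneg hM0 hM]
      exact ENNReal.mul_lt_top ENNReal.ofReal_lt_top (measure_lt_top _ _)
  have hfun : ft g = fun ξ => ∑' j, ft (gj j) ξ := funext hsum
  have hmeas : Measurable (ft g) := by
    rw [hfun]
    exact Measurable.tsum fun j => (hone j).1
  have hle : ∫⁻ ξ, ‖ft g ξ‖ₑ ^ q ≤ (ENNReal.ofReal (C ^ (1 / q) * ∑' j, M j)) ^ q := by
    calc ∫⁻ ξ, ‖ft g ξ‖ₑ ^ q ≤ ∫⁻ ξ, (∑' j, ‖ft (gj j) ξ‖ₑ) ^ q := by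
          apply lintegral_mono
          intro ξ
          simp only
          rw [hsum]
          exact ENNReal.rpow_le_rpow enorm_tsum_le_tsum_enorm hq0.le
      _ ≤ (∑' j, (∫⁻ ξ, ‖ft (gj j) ξ‖ₑ ^ q) ^ (1 / q)) ^ q :=
          mink volume q hq (fun j ξ => ‖ft (gj j) ξ‖ₑ) fun j => (hone j).1.enorm
      _ ≤ (∑' j, ENNReal.ofReal (C ^ (1 / q) * M j)) ^ q :=
          ENNReal.rpow_le_rpow (ENNReal.tsum_le_tsum fun j => (hone j).2) hq0.le
      _ = _ := by
          rw [← ENNReal.ofReal_tsum_of_nonneg (fun j => mul_nonneg (by positivity) (hM0 j))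
            (hM.mul_left _), tsum_mul_left]
  have hnorm : eLpNorm (ft g) (ENNReal.ofReal q) ≤
      ENNReal.ofReal (C ^ (1 / q) * ∑' j, M j) := by
    rw [eLpNorm_eq_lintegral_rpow_enorm_toReal (by simpa using hq0) ENNReal.ofReal_ne_top,
      ENNReal.toReal_ofReal hq0.le]
    refine (ENNReal.rpow_le_rpow hle (by positivity)).trans (le_of_eq ?_)
    rw [← ENNReal.rpow_mul, mul_one_div_cancel hq0.ne', ENNReal.rpow_one]
  exact ⟨⟨hmeas.aestronglyMeasurable, hnorm.trans_lt ENNReal.ofReal_lt_top⟩, hnorm⟩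

/-- **Theorem.** Block radial densities with `s` groups of coordinates, `2 ≤ s < n`. The estimate
with exponent `q` holds in each of the following cases: `s = 2` and `q` is in the full conjectured
range `q > 2n/(n-1)`; `q > 2 + 4/(2n-s-1)`; Stein's estimate is true for the sphere of `ℝ^s` and some
`P > 2` with `(q - 2)((n-s)/2 + 1/(P-2)) > 1`; Stein's conjecture is true in `ℝ^s` and
`q > 2n/(n-1)`. -/
theorem result (n s : ℕ) (hs : 2 ≤ s) (hsn : s < n) (q : ℝ)
    (h : (s = 2 ∧ 2 * (n : ℝ) / (n - 1) < q) ∨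
      2 + 4 / (2 * (n : ℝ) - s - 1) < q ∨
      (∃ P : ℝ, 2 < P ∧ Stein s P ∧ 1 < (q - 2) * (((n : ℝ) - s) / 2 + 1 / (P - 2))) ∨
      ((∀ P : ℝ, 2 * (s : ℝ) / (s - 1) < P → Stein s P) ∧ 2 * (n : ℝ) / (n - 1) < q)) :
    Holds n s q := by
  have hs' : (2 : ℝ) ≤ s := by exact_mod_cast hs
  have hsn' : (s : ℝ) < n := by exact_mod_cast hsn
  have hD : 0 < ((n : ℝ) - s) / 2 := by linarith
  -- the conjectured range
  have hfull : 2 * (n : ℝ) / (n - 1) < q → 1 < (q - 2) * (((n : ℝ) - s) / 2 + (s - 1) / 2) := by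
    intro hq
    rw [div_lt_iff₀ (by linarith)] at hq
    nlinarith
  have hq1 : ∀ P : ℝ, 2 < P → 1 < (q - 2) * (((n : ℝ) - s) / 2 + 1 / (P - 2)) → 1 ≤ q := by
    intro P hP h1
    have h2 : 0 < 1 / (P - 2) := one_div_pos.2 (by linarith)
    have hq : 0 < q - 2 := by
      by_contra hc
      have : (q - 2) * (((n : ℝ) - s) / 2 + 1 / (P - 2)) ≤ 0 :=
        mul_nonpos_of_nonpos_of_nonneg (not_lt.1 hc) (by linarith)
      linarith
    linarith
  have hA : ∀ P : ℝ, 2 < P → RT s P →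
      1 < (q - 2) * (((n : ℝ) - s) / 2 + 1 / (P - 2)) → Holds n s q := by
    intro P hP hS h1
    refine holds_of (by omega) q (hq1 P hP h1) (ind s hs P hP (fun k hk => ?_) n hsn q h1)
    apply hyp_of_rest k hk (by omega)
    have h2 : 1 + (s - 1) = s := by omega
    rw [h2]
    exact hS
  have hPs : ∀ B : ℝ, 0 < B → 1 < (q - 2) * (((n : ℝ) - s) / 2 + B) → ∃ P : ℝ, 2 < P ∧
      1 / (P - 2) < B ∧ 1 < (q - 2) * (((n : ℝ) - s) / 2 + 1 / (P - 2)) := by
    intro B hB h1
    have hq : 0 < q - 2 := by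
      by_contra hc
      have : (q - 2) * (((n : ℝ) - s) / 2 + B) ≤ 0 :=
        mul_nonpos_of_nonpos_of_nonneg (not_lt.1 hc) (by linarith)
      linarith
    have h1' : 1 / (q - 2) - ((n : ℝ) - s) / 2 < B := by
      have h2 : 1 / (q - 2) < ((n : ℝ) - s) / 2 + B := by
        rw [div_lt_iff₀ hq, mul_comm]
        exact h1
      linarith
    obtain ⟨v, hv1, hv2⟩ := exists_between (max_lt h1' hB)
    have hv0 : 0 < v := lt_of_le_of_lt (le_max_right _ _) hv1
    have hv3 : 1 / (q - 2) - ((n : ℝ) - s) / 2 < v := lt_of_le_of_lt (le_max_left _ _) hv1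
    refine ⟨2 + 1 / v, by linarith [one_div_pos.2 hv0], ?_, ?_⟩
    · rw [add_sub_cancel_left, one_div_one_div]
      exact hv2
    · rw [add_sub_cancel_left, one_div_one_div]
      have h4 : 1 / (q - 2) < ((n : ℝ) - s) / 2 + v := by linarith
      rw [div_lt_iff₀ hq] at h4
      rw [mul_comm]
      exact h4
  rcases h with ⟨h1, hq⟩ | hq | ⟨P, hP, hS, h⟩ | ⟨hS, hq⟩
  · subst h1
    have h1 := hfull hq
    have h2 : 1 < (q - 2) * (((n : ℝ) - (2 : ℕ)) / 2 + 1 / (4 - 2)) := by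
      push_cast at h1 ⊢
      norm_num at h1 ⊢
      exact h1
    refine holds_of (by omega) q (hq1 4 (by norm_num) h2)
      (ind 2 le_rfl 4 (by norm_num) (fun k hk => hyp_one k hk) n hsn q h2)
  · have h1 : 1 < (q - 2) * (((n : ℝ) - s) / 2 + (s - 1) / 4) := by
      have h2 : 0 < 2 * (n : ℝ) - s - 1 := by linarith
      have h3 : 4 / (2 * (n : ℝ) - s - 1) < q - 2 := by linarith
      rw [div_lt_iff₀ h2] at h3
      nlinarith
    obtain ⟨P, hP, hPB, h2⟩ := hPs ((s - 1) / 4) (by linarith) h1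
    refine hA P hP ?_ h2
    apply stein_tomas s hs P
    have hP2 : 0 < P - 2 := by linarith
    rw [div_lt_iff₀ hP2] at hPB
    rw [div_lt_iff₀ (by linarith)]
    nlinarith
  · exact hA P hP (rt_of_stein s P (by linarith) hS) h
  · obtain ⟨P, hP, hPB, h2⟩ := hPs ((s - 1) / 2) (by linarith) (hfull hq)
    refine hA P hP (rt_of_stein s P (by linarith) (hS P ?_)) h2
    have hP2 : 0 < P - 2 := by linarith
    rw [div_lt_iff₀ hP2] at hPB
    rw [div_lt_iff₀ (by linarith)]
    nlinarith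

end Pool.Agent.Results.MP_6cbfb8_an.BlockRadialDensities
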