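import Mathlib
import Pool.Agent.Helper66x.CE.Dual
set_option autoImplicit false

/-!
# Stein's restriction conjecture: the convolution form of the endpoint estimate, and the additive
structure of superlevel sets

Let `n ≥ 2`, let `f` be a bounded density on the unit sphere of `ℝ^n`, `M = ‖f‖_∞`, and let `ft f` be the
Fourier transform of `f dσ`. At the endpoint `p = 2n/(n-1)` Stein's conjecture predicts (in weak form)
that `|ft f|²` is in weak `L^(n/(n-1))` with norm at most `C M²`. This would imply that convolution with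
`|ft f|²` maps `L^(2n/(n+1))` to `L^(2n/(n-1))`, with norm at most `C M²`. We prove this consequence, at
the endpoint, for all bounded densities and in all dimensions:

`‖ |ft f|² * a ‖_{2n/(n-1)} ≤ C M² ‖a‖_{2n/(n+1)}` for all `a ≥ 0`.

It follows that the superlevel sets can violate the conjecture only if they have no additive
structure. Let `E(A,B) = ∫ |{y : y ∈ A, w - y ∈ B}|² dw` be the additive energy. If `|ft f| ≥ λ` on `B`
then, for all measurable `A`,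

`λ⁴ E(A,B)^(1+1/n) ≤ C M⁴ |A|^(1+3/n) |B|^(2/n)`,

and if `|B| < ∞` and `E(B,B) ≥ δ |B|³` (the trivial bound is `E(B,B) ≤ |B|³`) then
`|B| ≤ C' δ^(-(n+1)/(2(n-1))) (M/λ)^(2n/(n-1))`, the endpoint form of the conjecture.
-/

namespace Pool.Agent.Results.MP_6cbfb8_an.ConvolutionEndpoint

open MeasureTheory Set Metric Complex
open scoped ENNReal NNReal RealInnerProductSpace

/-- `ℝ^n` -/
abbrev E (n : ℕ) := EuclideanSpace ℝ (Fin n)

/-- surface measure on the unit sphere -/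
noncomputable def sigma (n : ℕ) : Measure (sphere (0 : E n) 1) := (volume : Measure (E n)).toSphere

/-- the Fourier transform of the measure `f dσ` -/
noncomputable def ft {n : ℕ} (f : sphere (0 : E n) 1 → ℂ) (ξ : E n) : ℂ :=
  ∫ x, Complex.exp (-(2 * Real.pi * ⟪(x : E n), ξ⟫ : ℝ) * I) * f x ∂(sigma n)

/-- the additive energy of two sets -/
noncomputable def addEnergy {n : ℕ} (A B : Set (E n)) : ℝ≥0∞ :=
  ∫⁻ w, volume {y | y ∈ A ∧ w - y ∈ B} ^ 2

/-- **The endpoint estimate of Stein's conjecture in convolution form**, and the additive energy of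
superlevel sets. -/
theorem result (n : ℕ) (hn : 2 ≤ n) :
    ∃ C : ℝ≥0, ∀ f : sphere (0 : E n) 1 → ℂ, MemLp f ∞ (sigma n) →
      (∀ a : E n → ℝ≥0∞, Measurable a →
        (∫⁻ x, (∫⁻ y, ‖ft f (x - y)‖ₑ ^ 2 * a y) ^ (2 * (n : ℝ) / (n - 1))) ^
            (((n : ℝ) - 1) / (2 * n)) ≤
          C * eLpNorm f ∞ (sigma n) ^ 2 *
            (∫⁻ x, a x ^ (2 * (n : ℝ) / (n + 1))) ^ (((n : ℝ) + 1) / (2 * n))) ∧
      (∀ (lam : ℝ≥0) (B : Set (E n)), MeasurableSet B → (∀ x ∈ B, (lam : ℝ) ≤ ‖ft f x‖) →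
        (∀ A : Set (E n), MeasurableSet A →
          (lam : ℝ≥0∞) ^ 4 * addEnergy A B ^ (1 + 1 / (n : ℝ)) ≤
            C * eLpNorm f ∞ (sigma n) ^ 4 * volume A ^ (1 + 3 / (n : ℝ)) *
              volume B ^ (2 / (n : ℝ))) ∧
        (∀ δ : ℝ≥0, volume B ≠ ∞ → δ * volume B ^ 3 ≤ addEnergy B B →
          (lam : ℝ≥0∞) ^ 4 * (δ : ℝ≥0∞) ^ (1 + 1 / (n : ℝ)) * volume B ^ (2 - 2 / (n : ℝ)) ≤
            C * eLpNorm f ∞ (sigma n) ^ 4)) := by
  have hn' : (2 : ℝ) ≤ n := by exact_mod_cast hn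
  obtain ⟨C1, h1⟩ := Pool.Agent.Helper66x.CE.conv_ineq n hn
  obtain ⟨C2, h2⟩ := Pool.Agent.Helper66x.CE.super_energy n hn
  have key : ∀ f : sphere (0 : E n) 1 → ℂ, MemLp f ∞ (sigma n) →
      ∀ (lam : ℝ≥0) (B : Set (E n)), MeasurableSet B → (∀ x ∈ B, (lam : ℝ) ≤ ‖ft f x‖) →
      ∀ A : Set (E n), MeasurableSet A →
        (lam : ℝ≥0∞) ^ 4 * addEnergy A B ^ (1 + 1 / (n : ℝ)) ≤
          C2 * eLpNorm f ∞ (sigma n) ^ 4 * volume A ^ (1 + 3 / (n : ℝ)) *
            volume B ^ (2 / (n : ℝ)) := by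
    intro f hf lam B hB hl A hA
    have h3 := h2 f hf ((lam : ℝ≥0∞) ^ 2) A B hA hB (by
      intro x hx
      refine pow_le_pow_left' ?_ 2
      have h4 : (lam : ℝ≥0) ≤ ‖ft f x‖₊ := by
        rw [← NNReal.coe_le_coe]; exact hl x hx
      exact ENNReal.coe_le_coe.2 h4)
    rw [← pow_mul] at h3
    exact h3
  refine ⟨max C1 C2, fun f hf => ⟨fun a ha => ?_, fun lam B hB hl => ⟨fun A hA => ?_,
    fun δ hBf hδ => ?_⟩⟩⟩
  · have h3 := h1 f hf a ha
    unfold Pool.Agent.Helper66x.CE.sp Pool.Agent.Helper66x.CE.rr at h3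
    rw [one_div_div, one_div_div] at h3
    refine h3.trans ?_
    have h4 : (C1 : ℝ≥0∞) ≤ ((max C1 C2 : ℝ≥0) : ℝ≥0∞) := ENNReal.coe_le_coe.2 (le_max_left _ _)
    exact mul_le_mul' (mul_le_mul' h4 le_rfl) le_rfl
  · refine (key f hf lam B hB hl A hA).trans ?_
    gcongr
    exact le_max_right _ _
  · have h3 := key f hf lam B hB hl B hB
    rcases eq_or_ne (volume B) 0 with h0 | h0
    · have e : 0 < 2 - 2 / (n : ℝ) := by
        rw [sub_pos, div_lt_iff₀ (by linarith)]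
        linarith
      rw [h0, ENNReal.zero_rpow_of_pos e, mul_zero]
      exact zero_le
    have hpos : 0 < 1 + 1 / (n : ℝ) := by positivity
    have h4 : (lam : ℝ≥0∞) ^ 4 * (δ * volume B ^ 3) ^ (1 + 1 / (n : ℝ)) ≤
        C2 * eLpNorm f ∞ (sigma n) ^ 4 * volume B ^ (1 + 3 / (n : ℝ)) *
            volume B ^ (2 / (n : ℝ)) :=
      (mul_le_mul' le_rfl (ENNReal.rpow_le_rpow hδ hpos.le)).trans h3
    have e1 : (lam : ℝ≥0∞) ^ 4 * (δ * volume B ^ 3) ^ (1 + 1 / (n : ℝ)) =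
        (lam : ℝ≥0∞) ^ 4 * (δ : ℝ≥0∞) ^ (1 + 1 / (n : ℝ)) * volume B ^ (2 - 2 / (n : ℝ)) *
          volume B ^ (1 + 5 / (n : ℝ)) := by
      rw [ENNReal.mul_rpow_of_nonneg _ _ hpos.le, ← ENNReal.rpow_natCast (volume B) 3,
        ← ENNReal.rpow_mul, mul_assoc _ (volume B ^ (2 - 2 / (n : ℝ))), ← ENNReal.rpow_add _ _ h0 hBf, ← mul_assoc]
      congr 2
      push_cast
      field_simp
      ring
    have e2 : (C2 : ℝ≥0∞) * eLpNorm f ∞ (sigma n) ^ 4 * volume B ^ (1 + 3 / (n : ℝ)) *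
            volume B ^ (2 / (n : ℝ)) =
        C2 * eLpNorm f ∞ (sigma n) ^ 4 * volume B ^ (1 + 5 / (n : ℝ)) := by
      rw [mul_assoc _ (volume B ^ (1 + 3 / (n : ℝ))), ← ENNReal.rpow_add _ _ h0 hBf]
      congr 2
      field_simp
      ring
    rw [e1, e2] at h4
    have h5 : volume B ^ (1 + 5 / (n : ℝ)) ≠ 0 :=
      (ENNReal.rpow_pos (pos_iff_ne_zero.2 h0) hBf).ne'
    have h6 : volume B ^ (1 + 5 / (n : ℝ)) ≠ ∞ :=
      ENNReal.rpow_ne_top_of_nonneg (by positivity) hBf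
    have h7 := (ENNReal.mul_le_mul_iff_left h5 h6).1 h4
    refine h7.trans ?_
    gcongr
    exact le_max_right _ _

end Pool.Agent.Results.MP_6cbfb8_an.ConvolutionEndpoint
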