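import Mathlib
import Pool.Agent.Helper66x.AR.Fin
import Pool.Agent.Helper66x.AR.Cap
import Pool.Agent.TH335.RF.P4
set_option autoImplicit false

/-!
# Stein's restriction conjecture: densities with some regularity along parallel spheres only

Let `n = k + m`, `k ≥ 2`, `m ≥ 1`. Orthogonal coordinates `x = κ z + ι y`, `z ∈ ℝ^k`, `y ∈ ℝ^m`, fibre
the unit sphere of `ℝ^n` into the parallel `(k-1)`-spheres `{κ z + ι y : |z|² = 1 - |y|²}`, `|y| < 1`.
We consider bounded densities `g` with a finite seminorm of Gagliardo type of order `s > 0` along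
these spheres,
`along c s g = ∫_{|y|<1} (1-|y|²)^((k-2)/2-s) ∫∫ |g_y(u)-g_y(v)|² / |u-v|^(k-1+2s) dσ(u) dσ(v) dy`,
`g_y(u) = g(κ(√(1-|y|²) u) + ι y)`, `u ∈ S^(k-1)`. No regularity in the `m` variables `y` is assumed.

* For `m = 1`, so for the spheres of codimension one, `g dσ` has its Fourier transform in `L^p(ℝ^n)`
  for all `p > 2n/(n-1)`, the full conjectured range, as soon as `s ≥ (n-1)/(2n)`; for smaller `s > 0`
  this holds for `p > 2(n+1)/(n-1+2s)`, which for `s → 0` is the range of Stein and Tomas.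
* For every `m` the same is true with the additional condition `p > 2 + 4/(2n-m-2)`, or, if there is
  an estimate `L^∞ → L^P` for the sphere of `ℝ^(m+1)`, with the additional condition
  `(p - 2)((k-1)/2 + 1/(P-2)) > 1`; so Stein's conjecture in `ℝ^(m+1)` implies the full range.
* The same estimates hold for absolutely convergent superpositions of such densities, with
  different coordinate systems and arbitrary modulations.
* Since `(n-1)/(2n) < 1/2`, the first theorem applies to regions of the sphere which are bounded by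
  arbitrary (Borel) graphs, `{x : ⟨x, e'⟩ < φ(⟨x, e⟩)}`, `n ≥ 3`, and to the products of their
  indicator functions with arbitrary bounded Borel functions of `⟨x, e⟩`.
-/

namespace Pool.Agent.Results.MP_6cbfb8_an.PartialRegularity

open MeasureTheory Set Metric Complex
open Pool.Agent.TH335.RF (RT mink wt)
open Pool.Agent.H438R2.PD (P1 P2 P1_meas P2_meas T_meas' T_comp)
open Pool.Agent.H438R2.BR (J J_mp J_inner)
open Pool.Agent.H789R2.FR (sg T sg_finite)
open Pool.Agent.Helper66x.AR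
open scoped ENNReal RealInnerProductSpace

abbrev E (n : ℕ) := EuclideanSpace ℝ (Fin n)

/-- surface measure on the unit sphere -/
noncomputable def sigma (n : ℕ) : Measure (sphere (0 : E n) 1) := (volume : Measure (E n)).toSphere

/-- the Fourier transform of the measure `g dσ` -/
noncomputable def ft {n : ℕ} (g : sphere (0 : E n) 1 → ℂ) (ξ : E n) : ℂ :=
  ∫ x, Complex.exp (-(2 * Real.pi * ⟪(x : E n), ξ⟫ : ℝ) * I) * g x ∂(sigma n)

/-- Stein's estimate for the unit sphere of `ℝ^n` and the exponent `p`: the Fourier transform maps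
densities bounded by one to a bounded subset of `L^p`. -/
def Stein (n : ℕ) (p : ℝ) : Prop := ∃ C : ℝ, ∀ g : sphere (0 : E n) 1 → ℂ, Measurable g →
  (∀ x, ‖g x‖ ≤ 1) → eLpNorm (ft g) (ENNReal.ofReal p) ≤ ENNReal.ofReal C

/-- Orthogonal coordinates `(z, y)` of `ℝ^(k+m)`: linear isometries `κ : ℝ^k → ℝ^(k+m)` and
`ι : ℝ^m → ℝ^(k+m)` with orthogonal images. Every `x ∈ ℝ^(k+m)` is `κ z + ι y` for exactly one pair. -/
structure Coord (k m : ℕ) where
  κ : E k →ₗᵢ[ℝ] E (k + m)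
  ι : E m →ₗᵢ[ℝ] E (k + m)
  orth : ∀ z y, ⟪κ z, ι y⟫ = 0

/-- extension of a function on the unit sphere by zero -/
noncomputable def ext0 {n : ℕ} (g : sphere (0 : E n) 1 → ℂ) : E n → ℂ :=
  Function.extend Subtype.val g 0

/-- The restriction of `g` to the parallel sphere `{κ z + ι y : |z|² = 1 - |y|²}`, as a function on
the unit sphere of `ℝ^k`: `u ↦ g(κ(√(1-|y|²) u) + ι y)`. -/
noncomputable def slice {k m : ℕ} (c : Coord k m) (g : sphere (0 : E (k + m)) 1 → ℂ) (y : E m)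
    (u : sphere (0 : E k) 1) : ℂ :=
  ext0 g (c.κ (√(1 - ‖y‖ ^ 2) • (u : E k)) + c.ι y)

/-- the square of the Gagliardo seminorm of order `s` on the unit sphere of `ℝ^k` -/
noncomputable def gagliardo {k : ℕ} (s : ℝ) (f : sphere (0 : E k) 1 → ℂ) : ℝ≥0∞ :=
  ∫⁻ u, ∫⁻ v, ENNReal.ofReal (‖f u - f v‖ ^ 2 / ‖(u : E k) - (v : E k)‖ ^ ((k : ℝ) - 1 + 2 * s))
    ∂(sigma k) ∂(sigma k)

/-- The square of the seminorm of order `s` along the parallel `(k-1)`-spheres. (It is the integral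
over `x ∈ S^(k+m-1)` and over `x'` in the parallel sphere of `x`, with respect to the surface
measures of dimensions `k+m-1` and `k-1`, of `|g x - g x'|² / |x - x'|^(k-1+2s)`.) -/
noncomputable def along {k m : ℕ} (c : Coord k m) (s : ℝ) (g : sphere (0 : E (k + m)) 1 → ℂ) :
    ℝ≥0∞ :=
  ∫⁻ y in ball (0 : E m) 1, ENNReal.ofReal ((1 - ‖y‖ ^ 2) ^ (((k : ℝ) - 2) / 2 - s)) *
    gagliardo s (slice c g y)

/-- The density `g` on the unit sphere of `ℝ^(k+m)` is a superposition `∑_j e^{i⟨η_j, x⟩} f_j(x)` of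
modulated Borel functions with `|f_j| ≤ M_j` and seminorm at most `K_j` along the parallel
`(k-1)`-spheres of the coordinates `c_j`. -/
def Superposition {k m : ℕ} (s : ℝ) (M K : ℕ → ℝ) (g : sphere (0 : E (k + m)) 1 → ℂ) : Prop :=
  ∃ (c : ℕ → Coord k m) (η : ℕ → E (k + m)) (f : ℕ → sphere (0 : E (k + m)) 1 → ℂ),
    (∀ j, Measurable (f j)) ∧ (∀ j x, ‖f j x‖ ≤ M j) ∧
    (∀ j, along (c j) s (f j) ≤ ENNReal.ofReal (K j ^ 2)) ∧
    ∀ᵐ x ∂(sigma (k + m)), g x = ∑' j, Complex.exp ((⟪η j, (x : E (k + m))⟫ : ℝ) * I) * f j x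

/-- The estimate with exponent `p` for all the densities of this form. -/
def Holds (k m : ℕ) (s p : ℝ) : Prop := ∃ C : ℝ, 0 < C ∧ ∀ (M K : ℕ → ℝ), Summable M →
  Summable K → (∀ j, 0 ≤ K j) → ∀ g : sphere (0 : E (k + m)) 1 → ℂ, Superposition s M K g →
    MemLp (ft g) (ENNReal.ofReal p) ∧
    eLpNorm (ft g) (ENNReal.ofReal p) ≤ ENNReal.ofReal (C * ∑' j, (M j + K j))

/-- `g` is the product of a bounded Borel function of `⟨x, e⟩` and the indicator function of the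
region `⟨x, e'⟩ < φ(⟨x, e⟩)` below the graph of a Borel function -/
def Region {n : ℕ} (g : sphere (0 : E n) 1 → ℂ) : Prop :=
  ∃ (e e' : E n) (b : ℝ → ℂ) (φ : ℝ → ℝ), ‖e‖ = 1 ∧ ‖e'‖ = 1 ∧ ⟪e, e'⟫ = 0 ∧
    Measurable b ∧ (∀ t, ‖b t‖ ≤ 1) ∧ Measurable φ ∧
    ∀ x : sphere (0 : E n) 1, g x =
      {x : E n | ⟪x, e'⟫ < φ ⟪x, e⟫}.indicator (fun x => b ⟪x, e⟫) (x : E n)

/-! ### Proofs -/

theorem ft_eq {n : ℕ} (g : sphere (0 : E n) 1 → ℂ) (G : E n → ℂ) (hG : Measurable G)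
    (Λ : E n ≃ₗᵢ[ℝ] E n) (hg : ∀ᵐ x ∂(sigma n), g x = G (Λ x)) (ξ : E n) :
    ft g ξ = T G ((2 * Real.pi) • Λ ξ) := by
  rw [← map_smul, ← T_comp]
  unfold T ft
  have m1 : Measurable fun w : E n =>
      Complex.exp (-((⟪(2 * Real.pi) • ξ, w⟫ : ℝ) : ℂ) * I) * G (Λ w) := by
    have h2 : Measurable fun z : E n => (⟪(2 * Real.pi) • ξ, z⟫ : ℝ) :=
      (by fun_prop : Continuous _).measurable
    exact (Complex.measurable_exp.comp ((Complex.measurable_ofReal.comp h2).neg.mul_const I)).mul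
      (hG.comp Λ.continuous.measurable)
  simp only [sg]
  rw [integral_map measurable_subtype_coe.aemeasurable m1.aestronglyMeasurable]
  apply integral_congr_ae
  filter_upwards [hg] with x hx
  rw [hx, real_inner_smul_left, real_inner_comm]

theorem scale {n : ℕ} (f : E n → ℝ≥0∞) (hf : Measurable f) :
    ∫⁻ ξ : E n, f ((2 * Real.pi) • ξ) =
      ENNReal.ofReal ((2 * Real.pi) ^ n)⁻¹ * ∫⁻ z, f z := by
  have h2pi : (2 * Real.pi) ≠ 0 := by positivity
  have h3 := Measure.map_addHaar_smul (volume : Measure (E n)) h2pi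
  have h4 : ∫⁻ x : E n, f x ∂(Measure.map ((2 * Real.pi) • · : E n → E n) volume) =
      ∫⁻ ξ : E n, f ((2 * Real.pi) • ξ) := lintegral_map hf (measurable_const_smul _)
  rw [← h4, h3, lintegral_smul_measure, smul_eq_mul, finrank_euclideanSpace_fin,
    abs_of_nonneg (by positivity)]

theorem TG_meas {n : ℕ} (G : E n → ℂ) (hG : Measurable G) (Λ : E n ≃ₗᵢ[ℝ] E n) :
    Measurable fun ξ : E n => T G ((2 * Real.pi) • Λ ξ) := by
  have hTm : Measurable (T G) := T_meas' G hG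
  have hm1 : Measurable fun ξ : E n => T G ((2 * Real.pi) • ξ) := by
    have h1 : Measurable fun x : E n => (2 * Real.pi) • x := measurable_const_smul _
    have h2 := Measurable.comp hTm h1
    exact h2
  have h2 := Measurable.comp hm1 Λ.continuous.measurable
  exact h2

theorem ft_int_le {n : ℕ} (q : ℝ) (g : sphere (0 : E n) 1 → ℂ) (G : E n → ℂ)
    (hG : Measurable G) (Λ : E n ≃ₗᵢ[ℝ] E n) (hg : ∀ᵐ x ∂(sigma n), g x = G (Λ x)) :
    Measurable (ft g) ∧ ∫⁻ ξ, ‖ft g ξ‖ₑ ^ q ≤ ∫⁻ z, ‖T G z‖ₑ ^ q := by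
  have hfun : ft g = fun ξ => T G ((2 * Real.pi) • Λ ξ) := funext fun ξ => ft_eq g G hG Λ hg ξ
  have hTm : Measurable (T G) := T_meas' G hG
  have hmeas : Measurable fun z => ‖T G z‖ₑ ^ q := hTm.enorm.pow_const q
  have hm1 : Measurable fun ξ : E n => ‖T G ((2 * Real.pi) • ξ)‖ₑ ^ q := by
    have h1 : Measurable fun x : E n => (2 * Real.pi) • x := measurable_const_smul _
    exact hmeas.comp h1
  refine ⟨by rw [hfun]; exact TG_meas G hG Λ, ?_⟩
  rw [hfun]
  have h1 : ∫⁻ ξ, ‖T G ((2 * Real.pi) • Λ ξ)‖ₑ ^ q = ∫⁻ ξ, ‖T G ((2 * Real.pi) • ξ)‖ₑ ^ q :=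
    Λ.measurePreserving.lintegral_comp hm1
  rw [h1, scale (fun z => ‖T G z‖ₑ ^ q) hmeas]
  have h5 : ENNReal.ofReal ((2 * Real.pi) ^ n)⁻¹ ≤ 1 := by
    rw [ENNReal.ofReal_le_one]
    apply inv_le_one_of_one_le₀
    apply one_le_pow₀
    linarith [Real.pi_gt_three]
  calc _ ≤ 1 * ∫⁻ z, ‖T G z‖ₑ ^ q := by gcongr
    _ = _ := one_mul _

theorem ft_mod {n : ℕ} (g : sphere (0 : E n) 1 → ℂ) (η ξ : E n) :
    ft (fun x => Complex.exp ((⟪η, (x : E n)⟫ : ℝ) * I) * g x) ξ =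
      ft g (ξ - (2 * Real.pi)⁻¹ • η) := by
  unfold ft
  refine integral_congr_ae (Filter.Eventually.of_forall fun x => ?_)
  simp only
  rw [← mul_assoc, ← Complex.exp_add, inner_sub_right, real_inner_smul_right,
    real_inner_comm (x : E n) η]
  have hpi := Real.pi_ne_zero
  congr 2
  push_cast
  field_simp
  ring

theorem rt_of_stein (n : ℕ) (P : ℝ) (hP : 0 < P) (h : Stein n P) : RT n P := by
  obtain ⟨C, hC⟩ := h
  set C' : ℝ := |C| + 1 with hC'
  have hC'0 : 0 < C' := by positivity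
  have h2pi : 0 < (2 * Real.pi) ^ n := by positivity
  refine ⟨(2 * Real.pi) ^ n * C' ^ P, by positivity, fun G hG hb => ?_⟩
  set g : sphere (0 : E n) 1 → ℂ := fun x => G x with hg
  have hgm : Measurable g := hG.comp measurable_subtype_coe
  have h1 := hC g hgm (fun x => hb _)
  have hfun : ft g = fun ξ => T G ((2 * Real.pi) • ξ) := by
    funext ξ
    have h2 := ft_eq g G hG (LinearIsometryEquiv.refl ℝ (E n)) (Filter.Eventually.of_forall
      fun x => rfl) ξ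
    exact h2
  rw [eLpNorm_eq_lintegral_rpow_enorm_toReal (by simpa using hP) ENNReal.ofReal_ne_top,
    ENNReal.toReal_ofReal hP.le, hfun] at h1
  have hmeas : Measurable fun z => ‖T G z‖ₑ ^ P := (T_meas' G hG).enorm.pow_const P
  rw [scale (fun z => ‖T G z‖ₑ ^ P) hmeas] at h1
  have h2 : ENNReal.ofReal ((2 * Real.pi) ^ n)⁻¹ * ∫⁻ z, ‖T G z‖ₑ ^ P ≤
      ENNReal.ofReal (C' ^ P) := by
    have h3 := ENNReal.rpow_le_rpow h1 hP.le
    rw [← ENNReal.rpow_mul, one_div_mul_cancel hP.ne', ENNReal.rpow_one] at h3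
    refine h3.trans ?_
    rw [← ENNReal.ofReal_rpow_of_nonneg hC'0.le hP.le]
    apply ENNReal.rpow_le_rpow _ hP.le
    apply ENNReal.ofReal_le_ofReal
    rw [hC']
    linarith [le_abs_self C]
  calc ∫⁻ z, ‖T G z‖ₑ ^ P = ENNReal.ofReal ((2 * Real.pi) ^ n) *
        (ENNReal.ofReal ((2 * Real.pi) ^ n)⁻¹ * ∫⁻ z, ‖T G z‖ₑ ^ P) := by
        rw [← mul_assoc, ← ENNReal.ofReal_mul h2pi.le, mul_inv_cancel₀ h2pi.ne',
          ENNReal.ofReal_one, one_mul]
    _ ≤ ENNReal.ofReal ((2 * Real.pi) ^ n) * ENNReal.ofReal (C' ^ P) := by gcongr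
    _ = _ := by rw [← ENNReal.ofReal_mul h2pi.le]

theorem ext0_meas {n : ℕ} (g : sphere (0 : E n) 1 → ℂ) (hg : Measurable g) :
    Measurable (ext0 g) :=
  (MeasurableEmbedding.subtype_coe isClosed_sphere.measurableSet).measurable_extend hg
    measurable_zero

theorem ext0_coe {n : ℕ} (g : sphere (0 : E n) 1 → ℂ) (x : sphere (0 : E n) 1) :
    ext0 g (x : E n) = g x := Subtype.val_injective.extend_apply _ _ _

theorem ext0_le {n : ℕ} (g : sphere (0 : E n) 1 → ℂ) (M : ℝ) (hM0 : 0 ≤ M) (hM : ∀ x, ‖g x‖ ≤ M)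
    (x : E n) : ‖ext0 g x‖ ≤ M := by
  by_cases h : ∃ y : sphere (0 : E n) 1, (y : E n) = x
  · obtain ⟨y, rfl⟩ := h
    rw [ext0_coe]
    exact hM y
  · unfold ext0
    rw [Function.extend_apply' _ _ _ h]
    simpa using hM0

variable {k m : ℕ}

/-- the isometry of the coordinates -/
theorem exists_iso (c : Coord k m) : ∃ Θ : E (k + m) ≃ₗᵢ[ℝ] E (k + m),
    ∀ z y, Θ (J z y) = c.κ z + c.ι y := by
  let L : E (k + m) →ₗ[ℝ] E (k + m) :=
    { toFun := fun w => c.κ (P1 k m w) + c.ι (P2 k m w)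
      map_add' := by
        intro x y
        have e1 : P1 k m (x + y) = P1 k m x + P1 k m y := by ext i; simp [P1]
        have e2 : P2 k m (x + y) = P2 k m x + P2 k m y := by ext i; simp [P2]
        rw [e1, e2, map_add, map_add]
        abel
      map_smul' := by
        intro a x
        have e1 : P1 k m (a • x) = a • P1 k m x := by ext i; simp [P1]
        have e2 : P2 k m (a • x) = a • P2 k m x := by ext i; simp [P2]
        rw [e1, e2, map_smul, map_smul, ← smul_add]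
        rfl }
  have hnorm : ∀ x, ‖L x‖ = ‖x‖ := by
    intro x
    have h1 : ‖L x‖ ^ 2 = ‖x‖ ^ 2 := by
      change ‖c.κ (P1 k m x) + c.ι (P2 k m x)‖ ^ 2 = ‖x‖ ^ 2
      rw [norm_add_sq_real, c.orth, LinearIsometry.norm_map, LinearIsometry.norm_map]
      conv_rhs => rw [← J_P x]
      rw [J_nsq]
      ring
    exact (sq_eq_sq₀ (norm_nonneg _) (norm_nonneg _)).1 h1
  let Li : E (k + m) →ₗᵢ[ℝ] E (k + m) := ⟨L, hnorm⟩
  refine ⟨Li.toLinearIsometryEquiv rfl, fun z y => ?_⟩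
  change c.κ (P1 k m (J z y)) + c.ι (P2 k m (J z y)) = _
  rw [P1J, P2J]

theorem lint_sigma (n : ℕ) (f : E n → ℝ≥0∞) (hf : Measurable f) :
    ∫⁻ x, f x ∂(sg n) = ∫⁻ x, f (x : E n) ∂(sigma n) := by
  rw [sg, lintegral_map hf measurable_subtype_coe]
  rfl

/-- the seminorm in coordinates -/
theorem Sb_eq (c : Coord k m) (Θ : E (k + m) ≃ₗᵢ[ℝ] E (k + m))
    (hΘ : ∀ z y, Θ (J z y) = c.κ z + c.ι y) (s : ℝ) (g : sphere (0 : E (k + m)) 1 → ℂ)
    (hg : Measurable g) : Sb (fun w => ext0 g (Θ w)) s = along c s g := by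
  have f1 : IsFiniteMeasure (sg k) := sg_finite _
  unfold Sb along
  refine setLIntegral_congr_fun measurableSet_ball fun y hy => ?_
  have hy' : ‖y‖ < 1 := by simpa using hy
  have h1y : 0 ≤ 1 - ‖y‖ ^ 2 := by
    have := norm_nonneg y
    nlinarith
  have e1 : wt y ^ ((k : ℝ) - 2 - 2 * s) = (1 - ‖y‖ ^ 2) ^ (((k : ℝ) - 2) / 2 - s) := by
    unfold wt
    rw [Real.sqrt_eq_rpow, ← Real.rpow_mul h1y]
    congr 1
    ring
  rw [e1]
  congr 1
  have hGm : Measurable fun w : E (k + m) => ext0 g (Θ w) :=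
    (ext0_meas g hg).comp Θ.continuous.measurable
  have hφ := fmeas (fun w => ext0 g (Θ w)) hGm y
  have hk : Measurable (fun z : E k × E k =>
      ENNReal.ofReal (‖ext0 g (Θ (pt (y, z.1))) - ext0 g (Θ (pt (y, z.2)))‖ ^ 2 /
        ‖z.1 - z.2‖ ^ ((k : ℝ) - 1 + 2 * s))) := by
    apply Measurable.ennreal_ofReal
    exact (((hφ.comp measurable_fst).sub (hφ.comp measurable_snd)).norm.pow_const 2).div
      ((measurable_fst.sub measurable_snd).norm.pow_const _)
  unfold Kf gagliardo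
  rw [lint_sigma k _ hk.lintegral_prod_right']
  refine lintegral_congr fun u => ?_
  have hk2 : Measurable fun v : E k =>
      ENNReal.ofReal (‖ext0 g (Θ (pt (y, (u : E k)))) - ext0 g (Θ (pt (y, v)))‖ ^ 2 /
        ‖(u : E k) - v‖ ^ ((k : ℝ) - 1 + 2 * s)) := by
    apply Measurable.ennreal_ofReal
    exact ((measurable_const.sub hφ).norm.pow_const 2).div
      ((measurable_const.sub measurable_id).norm.pow_const _)
  rw [lint_sigma k _ hk2]
  refine lintegral_congr fun v => ?_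
  have e2 : ∀ w : sphere (0 : E k) 1, ext0 g (Θ (pt (y, (w : E k)))) = slice c g y w := by
    intro w
    unfold pt slice wt
    rw [hΘ]
  rw [e2, e2]

theorem Sb_smul (G : E (k + m) → ℂ) (s a : ℝ) :
    Sb (fun z => ((a : ℝ) : ℂ) * G z) s = ENNReal.ofReal (a ^ 2) * Sb G s := by
  unfold Sb Kf
  rw [← lintegral_const_mul' _ _ ENNReal.ofReal_ne_top]
  refine lintegral_congr fun y => ?_
  rw [mul_left_comm]
  congr 1
  rw [← lintegral_const_mul' _ _ ENNReal.ofReal_ne_top]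
  refine lintegral_congr fun u => ?_
  rw [← lintegral_const_mul' _ _ ENNReal.ofReal_ne_top]
  refine lintegral_congr fun v => ?_
  rw [← ENNReal.ofReal_mul (by positivity), ← mul_sub, norm_mul, Complex.norm_real,
    Real.norm_eq_abs, mul_pow, sq_abs, mul_div_assoc]

/-- one term of the superposition -/
theorem one_term (k m : ℕ) (s q : ℝ) (hq : 0 < q) (C : ℝ) (hC : 0 < C)
    (h : ∀ G : E (k + m) → ℂ, Measurable G → (∀ z, ‖G z‖ ≤ 1) → Sb G s ≤ 1 →
      ∫⁻ z, ‖T G z‖ₑ ^ q ≤ ENNReal.ofReal C)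
    (c : Coord k m) (η : E (k + m)) (f : sphere (0 : E (k + m)) 1 → ℂ) (hf : Measurable f)
    (M K : ℝ) (hM0 : 0 ≤ M) (hK0 : 0 ≤ K) (hM : ∀ x, ‖f x‖ ≤ M)
    (hK : along c s f ≤ ENNReal.ofReal (K ^ 2)) :
    Measurable (ft fun x : sphere (0 : E (k + m)) 1 =>
      Complex.exp ((⟪η, (x : E (k + m))⟫ : ℝ) * I) * f x) ∧
    (∫⁻ ξ, ‖ft (fun x : sphere (0 : E (k + m)) 1 =>
      Complex.exp ((⟪η, (x : E (k + m))⟫ : ℝ) * I) * f x) ξ‖ₑ ^ q) ^ (1 / q) ≤
      ENNReal.ofReal (C ^ (1 / q) * (M + K)) := by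
  obtain ⟨Θ, hΘ⟩ := exists_iso c
  set L : ℝ := M + K with hL
  have hL0 : 0 ≤ L := by positivity
  -- normalised function
  set G : E (k + m) → ℂ := fun w => ((L⁻¹ : ℝ) : ℂ) * ext0 f (Θ w) with hG
  have hextm : Measurable fun w : E (k + m) => ext0 f (Θ w) :=
    (ext0_meas f hf).comp Θ.continuous.measurable
  have hGm : Measurable G := hextm.const_mul _
  have hG1 : ∀ y, ‖G y‖ ≤ 1 := by
    intro y
    rw [hG]
    simp only [norm_mul, Complex.norm_real, Real.norm_of_nonneg (inv_nonneg.2 hL0)]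
    rcases hL0.eq_or_lt with h0 | h0
    · rw [← h0]; simp
    · rw [inv_mul_le_iff₀ h0, mul_one]
      exact (ext0_le f M hM0 hM _).trans (by linarith)
  have hGS : Sb G s ≤ 1 := by
    rw [hG, Sb_smul, Sb_eq c Θ hΘ s f hf]
    calc _ ≤ ENNReal.ofReal ((L⁻¹) ^ 2) * ENNReal.ofReal (K ^ 2) := by gcongr
      _ = ENNReal.ofReal ((L⁻¹ * K) ^ 2) := by
          rw [← ENNReal.ofReal_mul (by positivity), mul_pow]
      _ ≤ 1 := by
          rw [ENNReal.ofReal_le_one]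
          apply pow_le_one₀ (by positivity)
          rcases hL0.eq_or_lt with h0 | h0
          · rw [← h0]; simp
          · rw [inv_mul_le_iff₀ h0, mul_one]
            linarith
  set g0 : sphere (0 : E (k + m)) 1 → ℂ := fun x => ((L⁻¹ : ℝ) : ℂ) * f x with hg0
  have hff : ∀ x, f x = (L : ℂ) * g0 x := by
    intro x
    rw [hg0]
    simp only
    rcases hL0.eq_or_lt with h0 | h0
    · have h1 := hM x
      have h2 : M = 0 := by linarith
      rw [h2] at h1
      have h3 : f x = 0 := norm_le_zero_iff.1 h1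
      simp [h3]
    · rw [← mul_assoc, ← Complex.ofReal_mul, mul_inv_cancel₀ h0.ne', Complex.ofReal_one, one_mul]
  have hGae : ∀ᵐ x ∂(sigma (k + m)), g0 x = G (Θ.symm x) :=
    Filter.Eventually.of_forall fun x => by
      rw [hg0, hG]
      simp only
      rw [Θ.apply_symm_apply, ext0_coe]
  obtain ⟨hm1, hint⟩ := ft_int_le q g0 G hGm Θ.symm hGae
  have hfun : ft (fun x : sphere (0 : E (k + m)) 1 =>
      Complex.exp ((⟪η, (x : E (k + m))⟫ : ℝ) * I) * f x) =
      fun ξ => (L : ℂ) * ft g0 (ξ - (2 * Real.pi)⁻¹ • η) := by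
    funext ξ
    rw [← ft_mod]
    unfold ft
    rw [← integral_const_mul]
    refine integral_congr_ae (Filter.Eventually.of_forall fun x => ?_)
    simp only
    rw [hff]
    ring
  have hsub : Measurable fun ξ : E (k + m) => ξ - (2 * Real.pi)⁻¹ • η :=
    measurable_id.sub_const _
  rw [hfun]
  refine ⟨(hm1.comp hsub).const_mul _, ?_⟩
  have h1 : ∫⁻ ξ, ‖(L : ℂ) * ft g0 (ξ - (2 * Real.pi)⁻¹ • η)‖ₑ ^ q ≤
      ENNReal.ofReal (L ^ q * C) := by
    calc ∫⁻ ξ, ‖(L : ℂ) * ft g0 (ξ - (2 * Real.pi)⁻¹ • η)‖ₑ ^ q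
        = ∫⁻ ξ, ENNReal.ofReal (L ^ q) * ‖ft g0 (ξ - (2 * Real.pi)⁻¹ • η)‖ₑ ^ q := by
          refine lintegral_congr fun ξ => ?_
          rw [enorm_mul, ENNReal.mul_rpow_of_nonneg _ _ hq.le, ← ofReal_norm (L : ℂ),
            Complex.norm_real, Real.norm_of_nonneg hL0, ENNReal.ofReal_rpow_of_nonneg hL0 hq.le]
      _ = ENNReal.ofReal (L ^ q) * ∫⁻ ξ, ‖ft g0 ξ‖ₑ ^ q := by
          rw [lintegral_const_mul' _ _ ENNReal.ofReal_ne_top]
          congr 1
          exact lintegral_sub_right_eq_self (fun ξ => ‖ft g0 ξ‖ₑ ^ q) ((2 * Real.pi)⁻¹ • η)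
      _ ≤ ENNReal.ofReal (L ^ q) * ENNReal.ofReal C := by
          gcongr
          exact hint.trans (h G hGm hG1 hGS)
      _ = _ := by rw [← ENNReal.ofReal_mul (by positivity)]
  refine (ENNReal.rpow_le_rpow h1 (by positivity)).trans (le_of_eq ?_)
  rw [ENNReal.ofReal_rpow_of_nonneg (by positivity) (by positivity),
    Real.mul_rpow (by positivity) hC.le, ← Real.rpow_mul hL0, mul_one_div_cancel hq.ne',
    Real.rpow_one, mul_comm]

/-- the superposition -/
theorem holds_of (k m : ℕ) (s q : ℝ) (hq : 1 ≤ q) (h : HH k m s q) : Holds k m s q := by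
  obtain ⟨C, hC, h⟩ := h
  have hq0 : 0 < q := by linarith
  refine ⟨C ^ (1 / q), by positivity, ?_⟩
  rintro M K hM hK hK0 g ⟨c, η, f, hfm, hfM, hfK, hg⟩
  rcases isEmpty_or_nonempty (sphere (0 : E (k + m)) 1) with hemp | ⟨⟨x0⟩⟩
  · have hz : ft g = fun _ => 0 := by
      funext ξ
      unfold ft
      have : sigma (k + m) = 0 := Measure.eq_zero_of_isEmpty _
      rw [this, integral_zero_measure]
    rw [hz]
    refine ⟨MemLp.zero', ?_⟩
    simp
  have hM0 : ∀ j, 0 ≤ M j := fun j => (norm_nonneg _).trans (hfM j x0)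
  set gj : ℕ → sphere (0 : E (k + m)) 1 → ℂ := fun j x =>
    Complex.exp ((⟪η j, (x : E (k + m))⟫ : ℝ) * I) * f j x with hgj
  have hone := fun j => one_term k m s q hq0 C hC h (c j) (η j) (f j) (hfm j) (M j) (K j) (hM0 j)
    (hK0 j) (hfM j) (hfK j)
  have hfin : IsFiniteMeasure (sigma (k + m)) := by unfold sigma; infer_instance
  have hgjm : ∀ j, Measurable (gj j) := by
    intro j
    have h1 : Measurable fun x : sphere (0 : E (k + m)) 1 =>
        Complex.exp ((⟪η j, (x : E (k + m))⟫ : ℝ) * I) :=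
      (by fun_prop : Continuous _).measurable
    exact h1.mul (hfm j)
  have hgjb : ∀ j x, ‖gj j x‖ ≤ M j := by
    intro j x
    rw [hgj]
    simp only [norm_mul, Complex.norm_exp_ofReal_mul_I, one_mul]
    exact hfM j _
  have hsum : ∀ ξ, ft g ξ = ∑' j, ft (gj j) ξ := by
    intro ξ
    unfold ft
    have hen : ∀ (j : ℕ) (x : sphere (0 : E (k + m)) 1),
        ‖Complex.exp (-(2 * Real.pi * ⟪(x : E (k + m)), ξ⟫ : ℝ) * I) * gj j x‖ₑ ≤
          ENNReal.ofReal (M j) := by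
      intro j x
      rw [← ofReal_norm]
      apply ENNReal.ofReal_le_ofReal
      have h3 : -(((2 * Real.pi * ⟪(x : E (k + m)), ξ⟫ : ℝ)) : ℂ) * I =
          ((-(2 * Real.pi * ⟪(x : E (k + m)), ξ⟫) : ℝ) : ℂ) * I := by push_cast; ring
      rw [norm_mul, h3, Complex.norm_exp_ofReal_mul_I, one_mul]
      exact hgjb j x
    have hexm : Measurable fun x : sphere (0 : E (k + m)) 1 =>
        Complex.exp (-(2 * Real.pi * ⟪(x : E (k + m)), ξ⟫ : ℝ) * I) := by
      have h4 : Continuous fun x : sphere (0 : E (k + m)) 1 =>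
        Complex.exp (-(2 * Real.pi * ⟪(x : E (k + m)), ξ⟫ : ℝ) * I) := by fun_prop
      exact h4.measurable
    rw [← integral_tsum]
    · refine integral_congr_ae ?_
      filter_upwards [hg] with x hx
      rw [hx, ← tsum_mul_left]
    · exact fun j => (hexm.mul (hgjm j)).aestronglyMeasurable
    · have h5 : ∑' j, ∫⁻ x, ‖Complex.exp (-(2 * Real.pi * ⟪(x : E (k + m)), ξ⟫ : ℝ) * I) *
          gj j x‖ₑ ∂(sigma (k + m)) ≤ ∑' j, ENNReal.ofReal (M j) * sigma (k + m) univ := by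
        apply ENNReal.tsum_le_tsum
        intro j
        calc _ ≤ ∫⁻ _x, ENNReal.ofReal (M j) ∂(sigma (k + m)) := lintegral_mono (hen j)
          _ = _ := by rw [lintegral_const]
      refine (h5.trans_lt ?_).ne
      rw [ENNReal.tsum_mul_right, ← ENNReal.ofReal_tsum_of_nonneg hM0 hM]
      exact ENNReal.mul_lt_top ENNReal.ofReal_lt_top (measure_lt_top _ _)
  have hfun : ft g = fun ξ => ∑' j, ft (gj j) ξ := funext hsum
  have hmeas : Measurable (ft g) := by
    rw [hfun]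
    exact Measurable.tsum fun j => (hone j).1
  have hle : ∫⁻ ξ, ‖ft g ξ‖ₑ ^ q ≤ (ENNReal.ofReal (C ^ (1 / q) * ∑' j, (M j + K j))) ^ q := by
    calc ∫⁻ ξ, ‖ft g ξ‖ₑ ^ q ≤ ∫⁻ ξ, (∑' j, ‖ft (gj j) ξ‖ₑ) ^ q := by
          apply lintegral_mono
          intro ξ
          simp only
          rw [hsum]
          exact ENNReal.rpow_le_rpow enorm_tsum_le_tsum_enorm hq0.le
      _ ≤ (∑' j, (∫⁻ ξ, ‖ft (gj j) ξ‖ₑ ^ q) ^ (1 / q)) ^ q :=
          mink volume q hq (fun j ξ => ‖ft (gj j) ξ‖ₑ) fun j => (hone j).1.enorm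
      _ ≤ (∑' j, ENNReal.ofReal (C ^ (1 / q) * (M j + K j))) ^ q :=
          ENNReal.rpow_le_rpow (ENNReal.tsum_le_tsum fun j => (hone j).2) hq0.le
      _ = _ := by
          rw [← ENNReal.ofReal_tsum_of_nonneg (fun j => mul_nonneg (by positivity)
            (add_nonneg (hM0 j) (hK0 j))) ((hM.add hK).mul_left _), tsum_mul_left]
  have hnorm : eLpNorm (ft g) (ENNReal.ofReal q) ≤
      ENNReal.ofReal (C ^ (1 / q) * ∑' j, (M j + K j)) := by
    rw [eLpNorm_eq_lintegral_rpow_enorm_toReal (by simpa using hq0) ENNReal.ofReal_ne_top,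
      ENNReal.toReal_ofReal hq0.le]
    refine (ENNReal.rpow_le_rpow hle (by positivity)).trans (le_of_eq ?_)
    rw [← ENNReal.rpow_mul, mul_one_div_cancel hq0.ne', ENNReal.rpow_one]
  exact ⟨⟨hmeas.aestronglyMeasurable, hnorm.trans_lt ENNReal.ofReal_lt_top⟩, hnorm⟩

theorem region_meas {n : ℕ} (g : sphere (0 : E n) 1 → ℂ) (h : Region g) : Measurable g := by
  obtain ⟨e, e', b, φ, -, -, -, hb, -, hφ, hg⟩ := h
  have hfun : g = fun x : sphere (0 : E n) 1 =>
      {x : E n | ⟪x, e'⟫ < φ ⟪x, e⟫}.indicator (fun x => b ⟪x, e⟫) (x : E n) := funext hg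
  have m1 : Measurable fun x : E n => (⟪x, e⟫ : ℝ) := measurable_id.inner measurable_const
  have m2 : Measurable fun x : E n => (⟪x, e'⟫ : ℝ) := measurable_id.inner measurable_const
  have hs : MeasurableSet {x : E n | (⟪x, e'⟫ : ℝ) < φ ⟪x, e⟫} :=
    measurableSet_lt m2 (hφ.comp m1)
  rw [hfun]
  exact ((hb.comp m1).indicator hs).comp measurable_subtype_coe

theorem region_coord (k : ℕ) (e e' : E (k + 1)) (he : ‖e‖ = 1) (he' : ‖e'‖ = 1)
    (hee : ⟪e, e'⟫ = 0) : ∃ (c : Coord k 1) (u0 : E k), ‖u0‖ = 1 ∧ c.κ u0 = e' ∧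
      ∀ y : E 1, c.ι y = y 0 • e := by
  have hv : e ≠ 0 := by
    rintro rfl
    simp at he
  have : Fact (Module.finrank ℝ (E (k + 1)) = k + 1) := ⟨by simp⟩
  let B := OrthonormalBasis.fromOrthogonalSpanSingleton (𝕜 := ℝ) k hv
  let κ : E k →ₗᵢ[ℝ] E (k + 1) :=
    ((ℝ ∙ e)ᗮ).subtypeₗᵢ.comp B.repr.symm.toLinearIsometry
  let ι : E 1 →ₗᵢ[ℝ] E (k + 1) :=
    { toFun := fun y => y 0 • e
      map_add' := by
        intro x y
        simp [add_smul]
      map_smul' := by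
        intro a x
        simp [mul_smul]
      norm_map' := by
        intro x
        simp only [LinearMap.coe_mk, AddHom.coe_mk, norm_smul, he, mul_one]
        rw [EuclideanSpace.norm_eq]
        simp [Real.sqrt_sq_eq_abs] }
  have hmem : e' ∈ (ℝ ∙ e)ᗮ := by
    rw [Submodule.mem_orthogonal_singleton_iff_inner_right]
    exact hee
  have horth : ∀ z, ⟪κ z, e⟫ = 0 := by
    intro z
    have h1 : κ z ∈ (ℝ ∙ e)ᗮ := (B.repr.symm z).2
    exact (Submodule.mem_orthogonal_singleton_iff_inner_left).1 h1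
  let c : Coord k 1 := ⟨κ, ι, by
    intro z y
    change ⟪κ z, y 0 • e⟫ = 0
    rw [real_inner_smul_right, horth, mul_zero]⟩
  refine ⟨c, B.repr ⟨e', hmem⟩, ?_, ?_, fun y => rfl⟩
  · rw [LinearIsometryEquiv.norm_map]
    exact he'
  · change ((B.repr.symm (B.repr ⟨e', hmem⟩) : (ℝ ∙ e)ᗮ) : E (k + 1)) = e'
    rw [LinearIsometryEquiv.symm_apply_apply]

/-- the seminorm of a region bounded by a graph -/
theorem region_along (k : ℕ) (hk : 2 ≤ k) (s : ℝ) (hs : 0 < s) (hs1 : s < 1 / 2) :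
    ∃ C : ℝ, 0 < C ∧ ∀ g : sphere (0 : E (k + 1)) 1 → ℂ, Region g →
      ∃ c : Coord k 1, along c s g ≤ ENNReal.ofReal C := by
  obtain ⟨C, hC, h⟩ := Sb_region k 1 hk le_rfl s hs hs1
  refine ⟨C, hC, fun g hR => ?_⟩
  have hgm := region_meas g hR
  obtain ⟨e, e', b, φ, he, he', hee, hb, hb1, hφ, hg⟩ := hR
  obtain ⟨c, u0, hu0, hκ, hι⟩ := region_coord k e e' he he' hee
  obtain ⟨Θ, hΘ⟩ := exists_iso c
  refine ⟨c, ?_⟩
  rw [← Sb_eq c Θ hΘ s g hgm]
  refine h u0 hu0 (fun y => b (y 0)) (fun y => hb1 _) (fun y => φ (y 0)) _ fun y hy u hu => ?_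
  have hy' : ‖y‖ < 1 := by simpa using hy
  have h1y : 0 ≤ 1 - ‖y‖ ^ 2 := by
    have := norm_nonneg y
    nlinarith
  have hw0 : 0 ≤ Pool.Agent.TH335.RF.wt y := Pool.Agent.TH335.RF.wt_nonneg y
  have hw2 : Pool.Agent.TH335.RF.wt y ^ 2 = 1 - ‖y‖ ^ 2 := by
    unfold Pool.Agent.TH335.RF.wt
    exact Real.sq_sqrt h1y
  have hx1 : ‖Θ (pt (y, u))‖ = 1 := by
    rw [LinearIsometryEquiv.norm_map]
    have h2 : ‖pt (y, u)‖ ^ 2 = 1 := by
      unfold pt
      rw [J_nsq, norm_smul, hu, mul_one, Real.norm_of_nonneg hw0, hw2]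
      ring
    have h3 := norm_nonneg (pt (y, u))
    nlinarith
  have hxe : (⟪Θ (pt (y, u)), e⟫ : ℝ) = y 0 := by
    unfold pt
    rw [hΘ, inner_add_left, hι]
    have h4 := c.orth (Pool.Agent.TH335.RF.wt y • u) (EuclideanSpace.single 0 1)
    rw [hι] at h4
    have h5 : (⟪c.κ (Pool.Agent.TH335.RF.wt y • u), e⟫ : ℝ) = 0 := by simpa using h4
    rw [h5, real_inner_smul_left, real_inner_self_eq_norm_sq, he]
    simp
  have hxe' : (⟪Θ (pt (y, u)), e'⟫ : ℝ) = ⟪u0, Pool.Agent.TH335.RF.wt y • u⟫ := by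
    unfold pt
    rw [hΘ, inner_add_left, hι, real_inner_smul_left, hee, mul_zero, add_zero, ← hκ,
      LinearIsometry.inner_map_map, real_inner_comm]
  have h6 : ext0 g (Θ (pt (y, u))) = g ⟨Θ (pt (y, u)), by simpa using hx1⟩ := by
    rw [← ext0_coe g]
  change ext0 g (Θ (pt (y, u))) = _
  rw [h6, hg]
  simp only [indicator, mem_ofPred_eq, hxe, hxe']
  split_ifs <;> simp

/-- regions bounded by graphs -/
theorem region_main (n : ℕ) (hn : 3 ≤ n) (p : ℝ) (hp : 2 * (n : ℝ) / (n - 1) < p) :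
    ∃ C : ℝ, 0 < C ∧ ∀ g : sphere (0 : E n) 1 → ℂ, Region g →
      MemLp (ft g) (ENNReal.ofReal p) ∧ eLpNorm (ft g) (ENNReal.ofReal p) ≤ ENNReal.ofReal C := by
  obtain ⟨k, rfl⟩ : ∃ k, n = k + 1 := ⟨n - 1, by omega⟩
  have hk : 2 ≤ k := by omega
  have hk2 : (2 : ℝ) ≤ k := by exact_mod_cast hk
  have hk0 : (0 : ℝ) < k := by linarith
  set s : ℝ := (k : ℝ) / (2 * (k + 1)) with hs
  have hs0 : 0 < s := by positivity
  have hs1 : s < 1 / 2 := by
    rw [hs, div_lt_div_iff₀ (by positivity) (by norm_num)]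
    linarith
  have hp' : 2 * ((k : ℝ) + 1) / k < p := by
    have e1 : (((k + 1 : ℕ) : ℝ)) - 1 = k := by push_cast; ring
    rw [e1] at hp
    push_cast at hp
    exact hp
  have hp2 : 2 * ((k : ℝ) + 2) / (k + 2 * s) < p := by
    have e1 : 2 * ((k : ℝ) + 2) / (k + 2 * s) = 2 * ((k : ℝ) + 1) / k := by
      rw [hs]
      field_simp
      ring
    rw [e1]
    exact hp'
  have hq1 : 1 < p := by
    refine lt_trans ?_ hp'
    rw [lt_div_iff₀ hk0]
    linarith
  have hq : 0 < p := by linarith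
  obtain ⟨C, hC, h⟩ := HH_one hk s p hs0 hp' hp2
  obtain ⟨C1, hC1, h1⟩ := region_along k hk s hs0 hs1
  refine ⟨C ^ (1 / p) * (1 + √C1), by positivity, fun g hR => ?_⟩
  have hgm := region_meas g hR
  obtain ⟨c, hc⟩ := h1 g hR
  have hg1 : ∀ x, ‖g x‖ ≤ 1 := by
    obtain ⟨e, e', b, φ, -, -, -, -, hb1, -, hg⟩ := hR
    intro x
    rw [hg, indicator]
    split_ifs
    · exact hb1 _
    · simp
  obtain ⟨hm, hle⟩ := one_term k 1 s p hq C hC h c 0 g hgm 1 (√C1) zero_le_one (Real.sqrt_nonneg _)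
    hg1 (by rwa [Real.sq_sqrt hC1.le])
  have hfun : (fun x : sphere (0 : E (k + 1)) 1 =>
      Complex.exp ((⟪(0 : E (k + 1)), (x : E (k + 1))⟫ : ℝ) * I) * g x) = g := by
    funext x
    simp
  rw [hfun] at hm hle
  have hnorm : eLpNorm (ft g) (ENNReal.ofReal p) ≤ ENNReal.ofReal (C ^ (1 / p) * (1 + √C1)) := by
    rw [eLpNorm_eq_lintegral_rpow_enorm_toReal (by simpa using hq) ENNReal.ofReal_ne_top,
      ENNReal.toReal_ofReal hq.le]
    exact hle
  exact ⟨⟨hm.aestronglyMeasurable, hnorm.trans_lt ENNReal.ofReal_lt_top⟩, hnorm⟩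

theorem exists_P (k : ℕ) (hk : 2 ≤ k) (B q : ℝ) (hB : 0 < B)
    (h : 1 < (q - 2) * (((k : ℝ) - 1) / 2 + B)) : ∃ P : ℝ, 2 < P ∧ 1 / (P - 2) < B ∧
    1 < (q - 2) * (((k : ℝ) - 1) / 2 + 1 / (P - 2)) := by
  have hk' : (2 : ℝ) ≤ k := by exact_mod_cast hk
  have hq : 0 < q - 2 := by
    by_contra hc
    have : (q - 2) * (((k : ℝ) - 1) / 2 + B) ≤ 0 :=
      mul_nonpos_of_nonpos_of_nonneg (not_lt.1 hc) (by linarith)
    linarith
  have h1 : 1 / (q - 2) - ((k : ℝ) - 1) / 2 < B := by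
    have h2 : 1 / (q - 2) < ((k : ℝ) - 1) / 2 + B := by
      rw [div_lt_iff₀ hq, mul_comm]
      exact h
    linarith
  obtain ⟨v, hv1, hv2⟩ := exists_between (max_lt h1 hB)
  have hv0 : 0 < v := lt_of_le_of_lt (le_max_right _ _) hv1
  have hv3 : 1 / (q - 2) - ((k : ℝ) - 1) / 2 < v := lt_of_le_of_lt (le_max_left _ _) hv1
  refine ⟨2 + 1 / v, by linarith [one_div_pos.2 hv0], ?_, ?_⟩
  · rw [add_sub_cancel_left, one_div_one_div]
    exact hv2
  · rw [add_sub_cancel_left, one_div_one_div]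
    have h4 : 1 / (q - 2) < ((k : ℝ) - 1) / 2 + v := by linarith
    rw [div_lt_iff₀ hq] at h4
    rw [mul_comm]
    exact h4

/-- **Theorem.** `n = k + m`, `k ≥ 2`, `m ≥ 1`.
(a) Let `s > 0` and `p > 2(n+1)/(n-1+2s)`. The estimate with exponent `p` for the densities with
regularity of order `s` along the parallel `(k-1)`-spheres holds in each of the following cases:
`m = 1` and `p` is in the full conjectured range `p > 2n/(n-1)`; `p > 2 + 4/(2n-m-2)`; Stein's
estimate is true for the sphere of `ℝ^(m+1)` and some `P > 2` with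
`(p - 2)((k-1)/2 + 1/(P-2)) > 1`; Stein's conjecture is true in `ℝ^(m+1)` and `p > 2n/(n-1)`.
(b) For `n ≥ 3` and all `p > 2n/(n-1)` the estimate is true for regions of the sphere which are
bounded by arbitrary graphs. -/
theorem result :
    (∀ k m : ℕ, 2 ≤ k → 1 ≤ m → ∀ s p : ℝ, 0 < s →
      2 * ((k : ℝ) + m + 1) / ((k : ℝ) + m - 1 + 2 * s) < p →
      ((m = 1 ∧ 2 * ((k : ℝ) + m) / ((k : ℝ) + m - 1) < p) ∨
        2 + 4 / (2 * ((k : ℝ) + m) - m - 2) < p ∨
        (∃ P : ℝ, 2 < P ∧ Stein (m + 1) P ∧ 1 < (p - 2) * (((k : ℝ) - 1) / 2 + 1 / (P - 2))) ∨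
        ((∀ P : ℝ, 2 * ((m : ℝ) + 1) / m < P → Stein (m + 1) P) ∧
          2 * ((k : ℝ) + m) / ((k : ℝ) + m - 1) < p)) →
      Holds k m s p) ∧
    (∀ n : ℕ, 3 ≤ n → ∀ p : ℝ, 2 * (n : ℝ) / (n - 1) < p →
      ∃ C : ℝ, 0 < C ∧ ∀ g : sphere (0 : E n) 1 → ℂ, Region g →
        MemLp (ft g) (ENNReal.ofReal p) ∧
        eLpNorm (ft g) (ENNReal.ofReal p) ≤ ENNReal.ofReal C) := by
  refine ⟨fun k m hk hm s p hs hp h => ?_, region_main⟩
  have hk' : (2 : ℝ) ≤ k := by exact_mod_cast hk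
  have hm' : (1 : ℝ) ≤ m := by exact_mod_cast hm
  have hN : 0 < (k : ℝ) + m - 1 := by linarith
  have hA : ∀ P : ℝ, 2 < P → Stein (m + 1) P →
      1 < (p - 2) * (((k : ℝ) - 1) / 2 + 1 / (P - 2)) → HH k m s p := by
    intro P hP hS h
    refine HH_RT hk hm s p P hs hP ?_ h hp
    rw [add_comm]
    exact rt_of_stein (m + 1) P (by linarith) hS
  have hp1 : 1 ≤ p := by
    rcases h with ⟨-, hq⟩ | hq | ⟨P, hP, -, h⟩ | ⟨-, hq⟩
    · have h1 : 1 ≤ 2 * ((k : ℝ) + m) / ((k : ℝ) + m - 1) := by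
        rw [le_div_iff₀ hN]
        linarith
      linarith
    · have h1 : 0 ≤ 4 / (2 * ((k : ℝ) + m) - m - 2) := div_nonneg (by norm_num) (by linarith)
      linarith
    · by_contra hc
      have i1 : 0 < 1 / (P - 2) := one_div_pos.2 (by linarith)
      have : (p - 2) * (((k : ℝ) - 1) / 2 + 1 / (P - 2)) ≤ 0 :=
        mul_nonpos_of_nonpos_of_nonneg (by linarith) (by linarith)
      linarith
    · have h1 : 1 ≤ 2 * ((k : ℝ) + m) / ((k : ℝ) + m - 1) := by
        rw [le_div_iff₀ hN]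
        linarith
      linarith
  refine holds_of k m s p hp1 ?_
  rcases h with ⟨h1, hq⟩ | hq | ⟨P, hP, hS, h⟩ | ⟨hS, hq⟩
  · subst h1
    push_cast at hq hp
    refine HH_one hk s p hs ?_ ?_
    · rwa [add_sub_cancel_right] at hq
    · have e1 : (k : ℝ) + 1 + 1 = k + 2 := by ring
      rwa [add_sub_cancel_right, e1] at hp
  · have e1 : 2 * ((k : ℝ) + m) - m - 2 = 2 * (k : ℝ) + m - 2 := by ring
    rw [e1] at hq
    exact HH_ST hk hm s p hs hq hp
  · exact hA P hP hS h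
  · have hfull : 1 < (p - 2) * (((k : ℝ) - 1) / 2 + m / 2) := by
      rw [div_lt_iff₀ hN] at hq
      nlinarith
    obtain ⟨P, hP, hPB, h2⟩ := exists_P k hk (m / 2) p (by positivity) hfull
    refine hA P hP (hS P ?_) h2
    have hP2 : 0 < P - 2 := by linarith
    rw [div_lt_iff₀ hP2] at hPB
    rw [div_lt_iff₀ (by linarith)]
    nlinarith

end Pool.Agent.Results.MP_6cbfb8_an.PartialRegularity
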