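import Mathlib
import Pool.Agent.Helper70x.RS.Knapp
import Pool.Agent.Helper70x.RS.Loc
import Pool.Agent.Helper70x.RS.Model
set_option autoImplicit false

/-!
# Stein's restriction conjecture on random sets

Let `U ⊂ ℝⁿ` be a random union of unit cubes: the cubes `k + [0,1)ⁿ`, `k ∈ ℤⁿ`, are chosen
independently, the cube `k` with probability `w(k) ≤ c (1+|k|)^(-a)`, `a > 0`. Let `(f dμ)^` be the
Fourier transform of `f dμ`, where `μ` is a finite measure on `ℝⁿ` whose Fourier transform has some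
power decay, for instance the surface measure `σ` of the unit sphere.

(1) The norms of `(f dμ)^` on the random set and with respect to the weight `w` (the mean of the
random set) are equivalent modulo `‖f‖_{L²(μ)}`: almost surely, for all `q > 2` and all `f ∈ L²(μ)`
at the same time,

  `‖f‖₂ + ‖(f dμ)^‖_{L^q(U)} ≍ ‖f‖₂ + ‖(f dμ)^‖_{L^q(w)}`.

(2) So, for the random set of density `(1+|k|)^(-a)`, estimates `L^s(μ) → L^q(U)`, `q > q₀`, `s ≥ 2`,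
are equivalent to the local estimates `‖(f dμ)^‖_{L^q(B_R)} ≤ C R^(a/q) ‖f‖_{L^s(μ)}`, `q > q₀`.

(3) For the sphere and a nonincreasing density `w(k) = W(|k|)` the estimate `L²(σ) → L^q(U)` holds
almost surely if `W(r) = O(r^(-a(q)))`, `a(q) = (n+1)/2 - (n-1)q/4`, and fails almost surely
otherwise (`2 < q < 2(n+1)/(n-1)`). So for the density `(1+|k|)^(-a)`, `0 < a < 1`, it holds for
`q = 2 + 4(1-a)/(n-1)`, endpoint included, and for no smaller `q > 2`. For `a = 1/2` this is the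
exponent `2n/(n-1)` of Stein's conjecture itself, with all square integrable densities.

(4) Stein's restriction conjecture (in its local form, with the loss `R^ε`) holds in `ℝⁿ` if and only
if for every `0 < a < 1` almost surely `L^∞(σ) → L^q(U)` for all `q > 2(n-a)/(n-1)`, where `U` is the
random set of density `(1+|k|)^(-a)`.

The proof of (1): duality for the level sets, the sampling method of Maurey for vectors of the Hilbert
space `L²(μ)`, a union bound over all samples, exponential deviation inequalities in both directions,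
and, far from the origin, where the random set has no clusters, the almost orthogonality of the
characters.
-/

namespace Pool.Agent.Results.MP_6cbfb8_an.RandomSets

open MeasureTheory Set Metric Complex ProbabilityTheory
open scoped ENNReal NNReal RealInnerProductSpace

/-- `ℝⁿ` -/
abbrev E (n : ℕ) : Type := EuclideanSpace ℝ (Fin n)

/-- surface measure of the unit sphere `S^{n-1}`, as a measure on `ℝⁿ` -/
noncomputable def sigma (n : ℕ) : Measure (E n) := ((volume : Measure (E n)).toSphere).map Subtype.val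

/-- the Fourier transform of the measure `f dμ` -/
noncomputable def ft {n : ℕ} (μ : Measure (E n)) (f : E n → ℂ) (ξ : E n) : ℂ :=
  ∫ x, Complex.exp (-(2 * Real.pi * ⟪x, ξ⟫ : ℝ) * I) * f x ∂μ

/-- the Fourier transform of `μ` has decay of order `γ`: `|μ^(ξ)| ≤ C |ξ|^(-γ)` -/
def Decay {n : ℕ} (μ : Measure (E n)) (γ : ℝ) : Prop :=
  ∃ C : ℝ, ∀ ξ : E n, ξ ≠ 0 → ‖ft μ (fun _ => 1) ξ‖ ≤ C * ‖ξ‖ ^ (-γ)

/-- the unit cube `k + [0,1)ⁿ` -/
def cube {n : ℕ} (k : Fin n → ℤ) : Set (E n) := {ξ | ∀ i, (k i : ℝ) ≤ ξ i ∧ ξ i < k i + 1}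

/-- Random cubes of density `w`: the events `A k` (the cube `k` is chosen) are independent and the
probability of `A k` is `w k`. -/
structure RandomCubes {n : ℕ} {Ω : Type} [MeasurableSpace Ω] (P : Measure Ω)
    (A : (Fin n → ℤ) → Set Ω) (w : (Fin n → ℤ) → ℝ) : Prop where
  prob : IsProbabilityMeasure P
  meas : ∀ k, MeasurableSet (A k)
  indep : iIndepSet A P
  density : ∀ k, P (A k) = ENNReal.ofReal (w k)

/-- the random set: the union of the chosen cubes -/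
def U {n : ℕ} {Ω : Type} (A : (Fin n → ℤ) → Set Ω) (ω : Ω) : Set (E n) :=
  ⋃ k ∈ {k | ω ∈ A k}, cube k

/-- the measure with the density `w k` on the cube `k` -/
noncomputable def wm {n : ℕ} (w : (Fin n → ℤ) → ℝ) : Measure (E n) :=
  volume.withDensity fun ξ => ENNReal.ofReal (w fun i => ⌊ξ i⌋)

/-- The operator `f ↦ (f dμ)^` is bounded from `L^s(μ)` to `L^q(ν)`. -/
def Bdd {n : ℕ} (μ : Measure (E n)) (s : ℝ≥0∞) (q : ℝ) (ν : Measure (E n)) : Prop :=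
  ∃ C : ℝ≥0, ∀ f : E n → ℂ, MemLp f s μ →
    eLpNorm (ft μ f) (ENNReal.ofReal q) ν ≤ C * eLpNorm f s μ

/-- The local estimate with the loss `R^b`: `‖(f dμ)^‖_{L^q(B_R)} ≤ C R^b ‖f‖_{L^s(μ)}`, `R ≥ 1`. -/
def LocBdd {n : ℕ} (μ : Measure (E n)) (s : ℝ≥0∞) (q b : ℝ) : Prop :=
  ∃ C : ℝ≥0, ∀ R : ℝ, 1 ≤ R → ∀ f : E n → ℂ, MemLp f s μ →
    eLpNorm (ft μ f) (ENNReal.ofReal q) (volume.restrict (ball 0 R)) ≤
      C * ENNReal.ofReal (R ^ b) * eLpNorm f s μ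

/-- the local form of Stein's restriction conjecture in `ℝⁿ` -/
def SteinLocal (n : ℕ) : Prop :=
  ∀ p : ℝ, 2 * n / ((n : ℝ) - 1) < p → ∀ ε : ℝ, 0 < ε → LocBdd (sigma n) ∞ p ε

section lemmas

open Pool.Agent.Helper70x.RS Pool.Agent.N248.RR
open Pool.Agent.H789R2.FR (sg)

variable {n : ℕ}

lemma ft_eq (μ : Measure (E n)) (f : E n → ℂ) : ft μ f = Gf μ (sS (-(2 * Real.pi))) f := by
  ext ξ
  unfold ft Gf
  refine integral_congr_ae (Filter.Eventually.of_forall fun x => ?_)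
  simp only
  congr 1
  unfold sS ex
  rw [inner_smul_left]
  congr 2
  simp

lemma ft_sF (f : E n → ℂ) : ft (sigma n) f = sF (-(2 * Real.pi)) f := ft_eq (sigma n) f

lemma ft_meas (μ : Measure (E n)) [IsFiniteMeasure μ] (f : E n → ℂ) (hf : MemLp f 2 μ) :
    Measurable (ft μ f) := by
  rw [ft_eq]
  exact Gf_meas μ _ (sS_meas _) f hf

lemma U_eq {Ω : Type} (A : (Fin n → ℤ) → Set Ω) (ω : Ω) : U A ω = {ξ | ω ∈ A (fl ξ)} := by
  ext ξ
  unfold U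
  simp only [mem_iUnion, exists_prop, mem_ofPred_eq]
  constructor
  · rintro ⟨k, hk, hξ⟩
    have h : ξ ∈ uq k := hξ
    rw [(mem_uq_iff ξ k).1 h]
    exact hk
  · intro h
    exact ⟨fl ξ, h, (mem_uq_iff ξ (fl ξ)).2 rfl⟩

lemma U_int {Ω : Type} (A : (Fin n → ℤ) → Set Ω) (ω : Ω) (g : E n → ℝ≥0∞) :
    ∫⁻ ξ in U A ω, g ξ = ∫⁻ ξ, io A ω (fl ξ) * g ξ := by
  have hm : MeasurableSet {ξ : E n | ω ∈ A (fl ξ)} :=
    fl_meas (Set.to_countable {k | ω ∈ A k}).measurableSet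
  rw [U_eq, ← lintegral_indicator hm]
  refine lintegral_congr fun ξ => ?_
  unfold io
  by_cases h : ω ∈ A (fl ξ)
  · rw [indicator_of_mem h, one_mul, indicator_of_mem (show ξ ∈ {ξ | ω ∈ A (fl ξ)} from h)]
  · rw [indicator_of_notMem h, zero_mul, indicator_of_notMem (show ξ ∉ {ξ | ω ∈ A (fl ξ)} from h)]

lemma wm_int (w : (Fin n → ℤ) → ℝ) (g : E n → ℝ≥0∞) (hg : Measurable g) :
    ∫⁻ ξ, g ξ ∂(wm w) = ∫⁻ ξ, ENNReal.ofReal (w (fl ξ)) * g ξ := by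
  have hw : Measurable fun ξ : E n => ENNReal.ofReal (w (fl ξ)) :=
    (measurable_of_countable fun k => ENNReal.ofReal (w k)).comp fl_meas
  exact lintegral_withDensity_eq_lintegral_mul volume hw hg

lemma en_eq (q : ℝ) (hq : 0 < q) (ν : Measure (E n)) (F : E n → ℂ) :
    eLpNorm F (ENNReal.ofReal q) ν = (∫⁻ ξ, ‖F ξ‖ₑ ^ q ∂ν) ^ (1 / q) := by
  rw [eLpNorm_eq_lintegral_rpow_enorm_toReal (ENNReal.ofReal_pos.2 hq).ne' ENNReal.ofReal_ne_top,
    ENNReal.toReal_ofReal hq.le]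

lemma root_le {q : ℝ} (hq : 0 < q) {X Y : ℝ≥0∞} : X ^ (1 / q) ≤ Y ↔ X ≤ Y ^ q := by
  rw [one_div, ENNReal.rpow_inv_le_iff hq]

lemma norm_of_pow {q : ℝ} (hq : 1 ≤ q) {X Y a : ℝ≥0∞} {C : ℝ≥0} (h : X ≤ C * (a ^ q + Y)) :
    X ^ (1 / q) ≤ (C ^ (1 / q) : ℝ≥0) * (a + Y ^ (1 / q)) := by
  have hq0 : 0 < q := by linarith
  have h1 : 0 ≤ 1 / q := by positivity
  have h2 : 1 / q ≤ 1 := by rw [div_le_one hq0]; exact hq
  calc X ^ (1 / q) ≤ (C * (a ^ q + Y)) ^ (1 / q) := ENNReal.rpow_le_rpow h h1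
    _ = (C : ℝ≥0∞) ^ (1 / q) * (a ^ q + Y) ^ (1 / q) := ENNReal.mul_rpow_of_nonneg _ _ h1
    _ ≤ (C : ℝ≥0∞) ^ (1 / q) * ((a ^ q) ^ (1 / q) + Y ^ (1 / q)) :=
        mul_le_mul' le_rfl (ENNReal.rpow_add_le_add_rpow _ _ h1 h2)
    _ = _ := by
        rw [← ENNReal.rpow_mul, mul_one_div_cancel hq0.ne', ENNReal.rpow_one,
          ENNReal.coe_rpow_of_nonneg _ h1]

lemma bdd_iff (μ : Measure (E n)) (s : ℝ≥0∞) (q : ℝ) (hq : 0 < q) (ν : Measure (E n)) :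
    Bdd μ s q ν ↔ ∃ C : ℝ≥0, ∀ f : E n → ℂ, MemLp f s μ →
      ∫⁻ ξ, ‖ft μ f ξ‖ₑ ^ q ∂ν ≤ C * eLpNorm f s μ ^ q := by
  unfold Bdd
  constructor
  · rintro ⟨C, hC⟩
    refine ⟨C ^ q, fun f hf => ?_⟩
    have h := hC f hf
    rw [en_eq q hq, root_le hq, ENNReal.mul_rpow_of_nonneg _ _ hq.le] at h
    rw [ENNReal.coe_rpow_of_nonneg _ hq.le]
    exact h
  · rintro ⟨C, hC⟩
    refine ⟨C ^ (1 / q), fun f hf => ?_⟩
    rw [en_eq q hq, root_le hq, ENNReal.mul_rpow_of_nonneg _ _ hq.le,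
      ENNReal.coe_rpow_of_nonneg _ (by positivity), ← ENNReal.rpow_mul, one_div_mul_cancel hq.ne',
      ENNReal.rpow_one]
    exact hC f hf

lemma loc_iff (μ : Measure (E n)) (s : ℝ≥0∞) (q b : ℝ) (hq : 0 < q) :
    LocBdd μ s q b ↔ ∃ C : ℝ≥0, ∀ R : ℝ, 1 ≤ R → ∀ f : E n → ℂ, MemLp f s μ →
      ∫⁻ ξ in ball 0 R, ‖ft μ f ξ‖ₑ ^ q ≤ C * ENNReal.ofReal (R ^ (b * q)) * eLpNorm f s μ ^ q := by
  have hR : ∀ R : ℝ, 1 ≤ R → ENNReal.ofReal (R ^ b) ^ q = ENNReal.ofReal (R ^ (b * q)) := by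
    intro R hR
    have hR0 : 0 < R := by linarith
    rw [ENNReal.ofReal_rpow_of_pos (Real.rpow_pos_of_pos hR0 b), ← Real.rpow_mul hR0.le]
  unfold LocBdd
  constructor
  · rintro ⟨C, hC⟩
    refine ⟨C ^ q, fun R h1 f hf => ?_⟩
    have h := hC R h1 f hf
    rw [en_eq q hq, root_le hq, ENNReal.mul_rpow_of_nonneg _ _ hq.le,
      ENNReal.mul_rpow_of_nonneg _ _ hq.le, hR R h1] at h
    rw [ENNReal.coe_rpow_of_nonneg _ hq.le]
    exact h
  · rintro ⟨C, hC⟩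
    refine ⟨C ^ (1 / q), fun R h1 f hf => ?_⟩
    rw [en_eq q hq, root_le hq, ENNReal.mul_rpow_of_nonneg _ _ hq.le,
      ENNReal.mul_rpow_of_nonneg _ _ hq.le, hR R h1,
      ENNReal.coe_rpow_of_nonneg _ (by positivity), ← ENNReal.rpow_mul, one_div_mul_cancel hq.ne',
      ENNReal.rpow_one]
    exact hC R h1 f hf

lemma decay_ex {μ : Measure (E n)} {γ : ℝ} (h : Decay μ γ) : ∃ L : ℝ, 0 ≤ L ∧ ∀ x : E n, x ≠ 0 →
    ‖∫ y, ex ⟪sS (-(2 * Real.pi)) y, x⟫ ∂μ‖ ≤ L * ‖x‖ ^ (-γ) := by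
  obtain ⟨C, hC⟩ := h
  refine ⟨|C|, abs_nonneg C, fun x hx => ?_⟩
  have h1 := hC x hx
  rw [ft_eq] at h1
  unfold Gf at h1
  simp_rw [mul_one] at h1
  refine h1.trans ?_
  exact mul_le_mul_of_nonneg_right (le_abs_self C) (by positivity)

/-- the transference in integral form -/
lemma tr (μ : Measure (E n)) [IsFiniteMeasure μ] (γ : ℝ) (hγ : 0 < γ) (hD : Decay μ γ)
    {Ω : Type} [MeasurableSpace Ω] (P : Measure Ω) (A : (Fin n → ℤ) → Set Ω)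
    (w : (Fin n → ℤ) → ℝ) (a c : ℝ) (hA : RandomCubes P A w) (ha : 0 < a)
    (hw : ∀ k, w k ≤ c * (1 + ‖k‖) ^ (-a)) :
    ∀ᵐ ω ∂P, ∀ q : ℝ, 2 < q → ∃ C : ℝ≥0, ∀ f : E n → ℂ, MemLp f 2 μ →
      ∫⁻ ξ in U A ω, ‖ft μ f ξ‖ₑ ^ q ≤
        C * (eLpNorm f 2 μ ^ q + ∫⁻ ξ, ‖ft μ f ξ‖ₑ ^ q ∂(wm w)) ∧
      ∫⁻ ξ, ‖ft μ f ξ‖ₑ ^ q ∂(wm w) ≤
        C * (eLpNorm f 2 μ ^ q + ∫⁻ ξ in U A ω, ‖ft μ f ξ‖ₑ ^ q) := by
  obtain ⟨L, hL0, hL⟩ := decay_ex hD
  have := hA.prob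
  have hp : ∀ j, P (A j) ≤ ENNReal.ofReal (max c 1 * (1 + ‖j‖) ^ (-(min a 1))) := by
    intro j
    rw [hA.density j]
    refine ENNReal.ofReal_le_ofReal ((hw j).trans ?_)
    have h1 : 1 ≤ 1 + ‖j‖ := by linarith [norm_nonneg j]
    have h2 : (1 + ‖j‖) ^ (-a) ≤ (1 + ‖j‖) ^ (-(min a 1)) :=
      Real.rpow_le_rpow_of_exponent_le h1 (by linarith [min_le_left a 1])
    have h3 : 0 ≤ (1 + ‖j‖) ^ (-a) := by positivity
    calc c * (1 + ‖j‖) ^ (-a) ≤ max c 1 * (1 + ‖j‖) ^ (-a) :=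
          mul_le_mul_of_nonneg_right (le_max_left _ _) h3
      _ ≤ _ := mul_le_mul_of_nonneg_left h2 (by positivity)
  have h := transfer_int μ (sS (-(2 * Real.pi))) (sS_meas _) P A hA.meas hA.indep (min a 1)
    (max c 1) (lt_min ha one_pos) (min_le_right _ _) (le_max_right _ _) hp L γ hL0 hγ hL
  filter_upwards [h] with ω hω
  intro q hq
  obtain ⟨C, hC⟩ := hω q hq
  refine ⟨C, fun f hf => ?_⟩
  have h1 := hC (hf.toLp f)
  simp_rw [Gf_ps, Lp.enorm_toLp, hA.density] at h1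
  have hm : Measurable fun ξ => ‖ft μ f ξ‖ₑ ^ q := (ft_meas μ f hf).enorm.pow_const q
  rw [U_int, wm_int w _ hm]
  simp_rw [ft_eq]
  exact h1

/-- boundedness on the random set and for the weight -/
lemma tr_bdd (μ : Measure (E n)) [IsFiniteMeasure μ] (ν₁ ν₂ : Measure (E n)) (q : ℝ) (hq : 2 < q)
    (h : ∃ C : ℝ≥0, ∀ f : E n → ℂ, MemLp f 2 μ →
      ∫⁻ ξ, ‖ft μ f ξ‖ₑ ^ q ∂ν₁ ≤ C * (eLpNorm f 2 μ ^ q + ∫⁻ ξ, ‖ft μ f ξ‖ₑ ^ q ∂ν₂))
    (s : ℝ≥0∞) (hs : 2 ≤ s) (hb : Bdd μ s q ν₂) : Bdd μ s q ν₁ := by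
  have hq0 : 0 < q := by linarith
  rw [bdd_iff μ s q hq0] at hb ⊢
  obtain ⟨C, hC⟩ := h
  obtain ⟨C₂, hC₂⟩ := hb
  obtain ⟨S, hS⟩ := inc_norm μ s hs
  refine ⟨C * (S ^ q + C₂), fun f hf => ?_⟩
  have hf2 : MemLp f 2 μ := hf.mono_exponent hs
  refine (hC f hf2).trans ?_
  rw [ENNReal.coe_mul, ENNReal.coe_add, mul_assoc, add_mul]
  refine mul_le_mul' le_rfl (add_le_add ?_ (hC₂ f hf))
  rw [ENNReal.coe_rpow_of_nonneg _ hq0.le, ← ENNReal.mul_rpow_of_nonneg _ _ hq0.le]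
  exact ENNReal.rpow_le_rpow (hS f hf) hq0.le

/-- local estimates from weighted estimates -/
lemma loc_of_wm (μ : Measure (E n)) [IsFiniteMeasure μ] (a : ℝ) (ha : 0 < a) (s : ℝ≥0∞)
    (hs : 2 ≤ s) (q : ℝ) (hq : 0 < q) (h : Bdd μ s q (wm fun k => (1 + ‖k‖) ^ (-a))) :
    LocBdd μ s q (a / q) := by
  rw [bdd_iff μ s q hq] at h
  rw [loc_iff μ s q _ hq, div_mul_cancel₀ a hq.ne']
  obtain ⟨C, hC⟩ := h
  refine ⟨(ENNReal.ofReal (3 ^ a)).toNNReal * C, fun R hR f hf => ?_⟩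
  have hf2 : MemLp f 2 μ := hf.mono_exponent hs
  have h1 := hC f hf
  rw [wm_int _ _ ((ft_meas μ f hf2).enorm.pow_const q)] at h1
  refine (unshell a q R ha.le hR (fun ξ => ‖ft μ f ξ‖ₑ) _ h1).trans (le_of_eq ?_)
  rw [ENNReal.coe_mul, ENNReal.coe_toNNReal ENNReal.ofReal_ne_top,
    Real.mul_rpow (by norm_num) (by linarith), ENNReal.ofReal_mul (by positivity)]
  ring

/-- weighted estimates from local estimates -/
lemma wm_of_loc (μ : Measure (E n)) [IsFiniteMeasure μ] (γ : ℝ) (hγ : 0 < γ) (hD : Decay μ γ)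
    (a : ℝ) (ha : 0 < a) (s : ℝ≥0∞) (hs : 2 ≤ s) (q₀ : ℝ) (hq₀ : 2 ≤ q₀)
    (h : ∀ q, q₀ < q → LocBdd μ s q (a / q)) (q : ℝ) (hq : q₀ < q) :
    Bdd μ s q (wm fun k => (1 + ‖k‖) ^ (-a)) := by
  obtain ⟨L, hL0, hL⟩ := decay_ex hD
  have h1 := loc_weight μ (sS (-(2 * Real.pi))) (sS_meas _) L γ hL0 hγ hL a ha s hs q₀ hq₀ (by
    intro q hq
    have hq0 : 0 < q := by linarith
    have h2 := h q hq
    rw [loc_iff μ s q _ hq0, div_mul_cancel₀ a hq0.ne'] at h2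
    simp_rw [ft_eq] at h2
    exact h2) q hq
  rw [bdd_iff μ s q (by linarith)]
  obtain ⟨C, hC⟩ := h1
  refine ⟨C, fun f hf => ?_⟩
  have hf2 : MemLp f 2 μ := hf.mono_exponent hs
  rw [wm_int _ _ ((ft_meas μ f hf2).enorm.pow_const q), ft_eq]
  exact hC f hf

/-- the random set of density `(1+|k|)^(-a)` -/
lemma part2 (μ : Measure (E n)) [IsFiniteMeasure μ] (γ : ℝ) (hγ : 0 < γ) (hD : Decay μ γ)
    {Ω : Type} [MeasurableSpace Ω] (P : Measure Ω) (A : (Fin n → ℤ) → Set Ω) (a : ℝ)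
    (ha : 0 < a) (hA : RandomCubes P A fun k => (1 + ‖k‖) ^ (-a)) :
    ∀ᵐ ω ∂P, ∀ s : ℝ≥0∞, 2 ≤ s → ∀ q₀ : ℝ, 2 ≤ q₀ →
      ((∀ q, q₀ < q → Bdd μ s q (volume.restrict (U A ω))) ↔
        ∀ q, q₀ < q → LocBdd μ s q (a / q)) := by
  filter_upwards [tr μ γ hγ hD P A _ a 1 hA ha (fun k => by rw [one_mul])] with ω hω
  intro s hs q₀ hq₀
  constructor
  · intro h q hq
    have hq2 : 2 < q := by linarith
    obtain ⟨C, hC⟩ := hω q hq2
    exact loc_of_wm μ a ha s hs q (by linarith)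
      (tr_bdd μ _ _ q hq2 ⟨C, fun f hf => (hC f hf).2⟩ s hs (h q hq))
  · intro h q hq
    have hq2 : 2 < q := by linarith
    obtain ⟨C, hC⟩ := hω q hq2
    exact tr_bdd μ _ _ q hq2 ⟨C, fun f hf => (hC f hf).1⟩ s hs
      (wm_of_loc μ γ hγ hD a ha s hs q₀ hq₀ h q hq)

instance sigma_fin (n : ℕ) : IsFiniteMeasure (sigma n) := sg_fin n

lemma sigma_decay (hn : 2 ≤ n) : Decay (sigma n) (((n : ℝ) - 1) / 2) := by
  have hpi := Real.pi_gt_three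
  have hs : (-(2 * Real.pi) : ℝ) ≠ 0 := by
    have : 0 < 2 * Real.pi := by positivity
    linarith
  obtain ⟨L, hL0, hL⟩ := sph_decay hn (-(2 * Real.pi)) hs
  refine ⟨L, fun ξ hξ => ?_⟩
  rw [ft_eq]
  unfold Gf
  simp_rw [mul_one]
  exact hL ξ hξ

lemma one_le_norm (k : Fin n → ℤ) (hk : k ≠ 0) : 1 ≤ ‖k‖ := by
  obtain ⟨i, hi⟩ : ∃ i, k i ≠ 0 := by
    by_contra hcon
    push Not at hcon
    exact hk (funext hcon)
  have h1 : ‖k i‖ ≤ ‖k‖ := norm_le_pi_norm k i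
  have h2 : (1 : ℝ) ≤ ‖k i‖ := by
    rw [Int.norm_eq_abs]
    exact_mod_cast Int.one_le_abs hi
  linarith

/-- the weighted estimate at the endpoint -/
lemma sigma_end (hn : 2 ≤ n) (a : ℝ) (ha : 0 < a) (ha1 : a < 1) (w : (Fin n → ℤ) → ℝ) (c : ℝ)
    (hw : ∀ k, w k ≤ c * (1 + ‖k‖) ^ (-a)) :
    Bdd (sigma n) 2 (2 + 4 * (1 - a) / ((n : ℝ) - 1)) (wm w) := by
  have hnR : (2 : ℝ) ≤ n := by exact_mod_cast hn
  have hpi := Real.pi_gt_three
  have hs : (-(2 * Real.pi) : ℝ) ≠ 0 := by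
    have : 0 < 2 * Real.pi := by positivity
    linarith
  set q : ℝ := 2 + 4 * (1 - a) / ((n : ℝ) - 1) with hq
  have hq0 : 0 < q := by
    have : 0 ≤ 4 * (1 - a) / ((n : ℝ) - 1) := div_nonneg (by linarith) (by linarith)
    linarith
  obtain ⟨C, hC⟩ := sph_end hn (-(2 * Real.pi)) hs a ha ha1
  rw [bdd_iff (sigma n) 2 q hq0]
  refine ⟨(ENNReal.ofReal c).toNNReal * C, fun f hf => ?_⟩
  have h1 := hC (MemLp.toLp f hf)
  rw [wm_int _ _ ((ft_meas (sigma n) f hf).enorm.pow_const q), ENNReal.coe_mul,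
    ENNReal.coe_toNNReal ENNReal.ofReal_ne_top]
  calc ∫⁻ ξ, ENNReal.ofReal (w (fl ξ)) * ‖ft (sigma n) f ξ‖ₑ ^ q
      ≤ ∫⁻ ξ, ENNReal.ofReal c * (ENNReal.ofReal ((1 + ‖fl ξ‖) ^ (-a)) *
          ‖ft (sigma n) f ξ‖ₑ ^ q) := by
        refine lintegral_mono fun ξ => ?_
        rw [← mul_assoc]
        refine mul_le_mul' ?_ le_rfl
        refine (ENNReal.ofReal_le_ofReal (hw (fl ξ))).trans (le_of_eq ?_)
        exact ENNReal.ofReal_mul' (by positivity)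
    _ = ENNReal.ofReal c * ∫⁻ ξ, ENNReal.ofReal ((1 + ‖fl ξ‖) ^ (-a)) *
          ‖ft (sigma n) f ξ‖ₑ ^ q := lintegral_const_mul' _ _ ENNReal.ofReal_ne_top
    _ ≤ ENNReal.ofReal c * (C * eLpNorm f 2 (sigma n) ^ q) := by
        refine mul_le_mul' le_rfl ?_
        have h2 : ∀ x, inner ℂ (ps (sg n) (sS (-(2 * Real.pi))) (sS_meas (-(2 * Real.pi))) x)
            (MemLp.toLp f hf) = ft (sigma n) f x := by
          intro x
          rw [ft_eq]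
          exact Gf_ps (sg n) _ (sS_meas _) f hf x
        simp_rw [h2, Lp.enorm_toLp] at h1
        exact h1
    _ = _ := by rw [mul_assoc]

/-- monotone densities -/
lemma part3 (hn : 2 ≤ n) {Ω : Type} [MeasurableSpace Ω] (P : Measure Ω)
    (A : (Fin n → ℤ) → Set Ω) (W : ℝ → ℝ) (hW : AntitoneOn W (Ici 0))
    (hA : RandomCubes P A fun k => W ‖k‖) (q : ℝ) (hq2 : 2 < q)
    (hq : q < 2 * (n + 1) / ((n : ℝ) - 1)) :
    ((∃ C : ℝ, ∀ r, 1 ≤ r → W r ≤ C * r ^ (-(((n : ℝ) + 1) / 2 - ((n : ℝ) - 1) * q / 4))) →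
      ∀ᵐ ω ∂P, Bdd (sigma n) 2 q (volume.restrict (U A ω))) ∧
    ((¬ ∃ C : ℝ, ∀ r, 1 ≤ r → W r ≤ C * r ^ (-(((n : ℝ) + 1) / 2 - ((n : ℝ) - 1) * q / 4))) →
      ∀ᵐ ω ∂P, ¬ Bdd (sigma n) 2 q (volume.restrict (U A ω))) := by
  have hnR : (2 : ℝ) ≤ n := by exact_mod_cast hn
  have hn1 : (0 : ℝ) < n - 1 := by linarith
  have := hA.prob
  set a : ℝ := ((n : ℝ) + 1) / 2 - ((n : ℝ) - 1) * q / 4 with ha
  have ha0 : 0 < a := by
    rw [lt_div_iff₀ hn1] at hq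
    rw [ha]
    linarith
  have ha1 : a < 1 := by
    rw [ha]
    nlinarith
  have hW0 : W 0 ≤ 1 := by
    have h1 : P (A 0) ≤ 1 := prob_le_one
    rw [hA.density 0, norm_zero] at h1
    exact ENNReal.ofReal_le_one.1 h1
  have hq0 : 0 < q := by linarith
  refine ⟨fun ⟨C, hC⟩ => ?_, fun hno => ?_⟩
  · have hw : ∀ k : Fin n → ℤ, W ‖k‖ ≤ (1 + |C| * 2 ^ a) * (1 + ‖k‖) ^ (-a) := by
      intro k
      have h0 : 0 ≤ |C| * 2 ^ a := by positivity
      rcases eq_or_ne k 0 with hk | hk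
      · subst hk
        rw [norm_zero, add_zero, Real.one_rpow, mul_one]
        linarith
      · have h1 := one_le_norm k hk
        have h2 : ‖k‖ ^ (-a) ≤ 2 ^ a * (1 + ‖k‖) ^ (-a) := by
          have h3 : (2 : ℝ) ^ a * (1 + ‖k‖) ^ (-a) = ((1 + ‖k‖) / 2) ^ (-a) := by
            rw [Real.div_rpow (by linarith) (by norm_num),
              Real.rpow_neg (by norm_num : (0 : ℝ) ≤ 2) a, div_inv_eq_mul, mul_comm]
          rw [h3]
          refine Real.rpow_le_rpow_of_nonpos (by positivity) ?_ (by linarith)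
          linarith
        have h4 : 0 ≤ ‖k‖ ^ (-a) := by positivity
        calc W ‖k‖ ≤ C * ‖k‖ ^ (-a) := hC _ h1
          _ ≤ |C| * ‖k‖ ^ (-a) := mul_le_mul_of_nonneg_right (le_abs_self C) h4
          _ ≤ |C| * (2 ^ a * (1 + ‖k‖) ^ (-a)) :=
              mul_le_mul_of_nonneg_left h2 (abs_nonneg C)
          _ ≤ (1 + |C| * 2 ^ a) * (1 + ‖k‖) ^ (-a) := by
              have h5 : 0 ≤ (1 + ‖k‖) ^ (-a) := by positivity
              nlinarith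
    have hb := sigma_end hn a ha0 ha1 (fun k => W ‖k‖) _ hw
    have e : 2 + 4 * (1 - a) / ((n : ℝ) - 1) = q := by
      rw [ha]
      field_simp
      ring
    rw [e] at hb
    filter_upwards [tr (sigma n) _ (by linarith) (sigma_decay hn) P A _ a _ hA ha0 hw] with ω hω
    obtain ⟨C', hC'⟩ := hω q hq2
    exact tr_bdd (sigma n) _ _ q hq2 ⟨C', fun f hf => (hC' f hf).1⟩ 2 le_rfl hb
  · have h := sph_unbdd hn (-(2 * Real.pi)) P A hA.meas hA.indep W hW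
      (fun r hr => (hW (by simp) (by simpa using hr) hr).trans hW0)
      (fun j => (hA.density j).ge) q a hq0 ha0 (by rw [ha]; ring) hno
    filter_upwards [h] with ω hω
    rw [bdd_iff (sigma n) 2 q hq0]
    rintro ⟨C, hC⟩
    obtain ⟨f, hf1, hf2⟩ := hω C
    have h2 := hC f hf1
    simp_rw [ft_eq] at h2
    exact absurd h2 (not_le.2 hf2)

/-- Stein's conjecture -/
lemma part4 (hn : 2 ≤ n) : SteinLocal n ↔
    ∀ (Ω : Type) [MeasurableSpace Ω] (P : Measure Ω) (A : (Fin n → ℤ) → Set Ω) (a : ℝ), 0 < a →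
      a < 1 → (RandomCubes P A fun k => (1 + ‖k‖) ^ (-a)) →
      ∀ᵐ ω ∂P, ∀ q : ℝ, 2 * (n - a) / ((n : ℝ) - 1) < q →
        Bdd (sigma n) ∞ q (volume.restrict (U A ω)) := by
  have hnR : (2 : ℝ) ≤ n := by exact_mod_cast hn
  have hn1 : (0 : ℝ) < n - 1 := by linarith
  have hpi := Real.pi_gt_three
  have hs : (-(2 * Real.pi) : ℝ) ≠ 0 := by
    have : 0 < 2 * Real.pi := by positivity
    linarith
  constructor
  · intro hS Ω _ P A a ha ha1 hA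
    have hqa2 : 2 < 2 * (n - a) / ((n : ℝ) - 1) := by
      rw [lt_div_iff₀ hn1]
      linarith
    filter_upwards [tr (sigma n) _ (by linarith) (sigma_decay hn) P A _ a 1 hA ha
      (fun k => by rw [one_mul])] with ω hω
    intro q hq
    have hq2 : 2 < q := by linarith
    have h1 := stein_fwd hn (-(2 * Real.pi)) hs (by
      intro p hp ε hε
      have hp0 : 0 < p := by
        have : 0 < 2 * (n : ℝ) / ((n : ℝ) - 1) := by positivity
        linarith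
      have h2 := hS p hp (ε / p) (by positivity)
      rw [loc_iff (sigma n) ∞ p _ hp0, div_mul_cancel₀ ε hp0.ne'] at h2
      simp_rw [ft_sF] at h2
      exact h2) a ha ha1 q hq
    have h3 : Bdd (sigma n) ∞ q (wm fun k => (1 + ‖k‖) ^ (-a)) := by
      rw [bdd_iff (sigma n) ∞ q (by linarith)]
      obtain ⟨C, hC⟩ := h1
      refine ⟨C, fun f hf => ?_⟩
      have hf2 : MemLp f 2 (sigma n) := hf.mono_exponent le_top
      rw [wm_int _ _ ((ft_meas (sigma n) f hf2).enorm.pow_const q), ft_sF]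
      exact hC f hf
    obtain ⟨C, hC⟩ := hω q hq2
    exact tr_bdd (sigma n) _ _ q hq2 ⟨C, fun f hf => (hC f hf).1⟩ ∞ le_top h3
  · intro h p hp ε hε
    have hp2 : 2 < p := by
      refine lt_trans ?_ hp
      rw [lt_div_iff₀ hn1]
      linarith
    have hp0 : 0 < p := by linarith
    set a : ℝ := min (1 / 2) (ε * p) with ha
    have ha0 : 0 < a := lt_min (by norm_num) (by positivity)
    have ha1 : a < 1 := lt_of_le_of_lt (min_le_left _ _) (by norm_num)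
    obtain ⟨Ω, mΩ, P, A, hP, hAm, hAi, hAP⟩ := exists_model
      (fun k : Fin n → ℤ => (1 + ‖k‖) ^ (-a)) (fun k => by positivity) (fun k => by
        refine Real.rpow_le_one_of_one_le_of_nonpos ?_ (by linarith)
        linarith [norm_nonneg k])
    have hA : RandomCubes P A fun k => (1 + ‖k‖) ^ (-a) := ⟨hP, hAm, hAi, hAP⟩
    obtain ⟨ω, h1, h2⟩ := ((h Ω P A a ha0 ha1 hA).and
      (tr (sigma n) _ (by linarith) (sigma_decay hn) P A _ a 1 hA ha0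
        (fun k => by rw [one_mul]))).exists
    have hpq : 2 * (n - a) / ((n : ℝ) - 1) < p := by
      refine lt_of_le_of_lt ?_ hp
      exact div_le_div_of_nonneg_right (by linarith) hn1.le
    obtain ⟨C, hC⟩ := h2 p hp2
    have h3 := tr_bdd (sigma n) _ _ p hp2 ⟨C, fun f hf => (hC f hf).2⟩ ∞ le_top (h1 p hpq)
    obtain ⟨D, hD⟩ := loc_of_wm (sigma n) a ha0 ∞ le_top p hp0 h3
    refine ⟨D, fun R hR f hf => (hD R hR f hf).trans ?_⟩
    refine mul_le_mul' (mul_le_mul' le_rfl (ENNReal.ofReal_le_ofReal ?_)) le_rfl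
    refine Real.rpow_le_rpow_of_exponent_le hR ?_
    rw [div_le_iff₀ hp0]
    exact min_le_right _ _

end lemmas

/-- **Stein's restriction conjecture on random sets.** Let `n ≥ 2`.

(1) Let `μ` be a finite measure on `ℝⁿ`, `|μ^(ξ)| ≤ C |ξ|^(-γ)` for some `γ > 0`, and let `U` be a
random union of unit cubes of density `w(k) ≤ c (1+|k|)^(-a)`, `a > 0`. Almost surely, for every
`q > 2` there is `C` such that for all `f ∈ L²(μ)`
`‖(f dμ)^‖_{L^q(U)} ≤ C (‖f‖₂ + ‖(f dμ)^‖_{L^q(w)})` and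
`‖(f dμ)^‖_{L^q(w)} ≤ C (‖f‖₂ + ‖(f dμ)^‖_{L^q(U)})`.

(2) If `w(k) = (1+|k|)^(-a)`, `a > 0`, then almost surely, for all `s ≥ 2` and `q₀ ≥ 2`:
`f ↦ (f dμ)^` is bounded from `L^s(μ)` to `L^q(U)` for all `q > q₀` if and only if for all `q > q₀`
and `R ≥ 1` one has `‖(f dμ)^‖_{L^q(B_R)} ≤ C_q R^(a/q) ‖f‖_{L^s(μ)}`.

(3) Let `σ` be the surface measure of the unit sphere, `2 < q < 2(n+1)/(n-1)`, and let
`w(k) = W(|k|)`, `W` nonincreasing. If `W(r) ≤ C r^(-a(q))`, `a(q) = (n+1)/2 - (n-1)q/4`, then almost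
surely `f ↦ (f dσ)^` is bounded from `L²(σ)` to `L^q(U)`; otherwise almost surely it is not.

(4) The local form of Stein's restriction conjecture in `ℝⁿ` (for all `p > 2n/(n-1)` and `ε > 0`:
`‖(f dσ)^‖_{L^p(B_R)} ≤ C R^ε ‖f‖_∞`) holds if and only if for all `0 < a < 1` and random cubes of
density `(1+|k|)^(-a)` almost surely, for all `q > 2(n-a)/(n-1)`, `f ↦ (f dσ)^` is bounded from
`L^∞(σ)` to `L^q(U)`. -/
theorem result (n : ℕ) (hn : 2 ≤ n) :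
    (∀ (μ : Measure (E n)) [IsFiniteMeasure μ] (γ : ℝ), 0 < γ → Decay μ γ →
      ∀ (Ω : Type) [MeasurableSpace Ω] (P : Measure Ω) (A : (Fin n → ℤ) → Set Ω),
      (∀ (w : (Fin n → ℤ) → ℝ) (a c : ℝ), RandomCubes P A w → 0 < a →
        (∀ k, w k ≤ c * (1 + ‖k‖) ^ (-a)) →
        ∀ᵐ ω ∂P, ∀ q : ℝ, 2 < q → ∃ C : ℝ≥0, ∀ f : E n → ℂ, MemLp f 2 μ →
          eLpNorm (ft μ f) (ENNReal.ofReal q) (volume.restrict (U A ω)) ≤
            C * (eLpNorm f 2 μ + eLpNorm (ft μ f) (ENNReal.ofReal q) (wm w)) ∧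
          eLpNorm (ft μ f) (ENNReal.ofReal q) (wm w) ≤
            C * (eLpNorm f 2 μ + eLpNorm (ft μ f) (ENNReal.ofReal q) (volume.restrict (U A ω)))) ∧
      (∀ a : ℝ, 0 < a → (RandomCubes P A fun k => (1 + ‖k‖) ^ (-a)) →
        ∀ᵐ ω ∂P, ∀ s : ℝ≥0∞, 2 ≤ s → ∀ q₀ : ℝ, 2 ≤ q₀ →
          ((∀ q, q₀ < q → Bdd μ s q (volume.restrict (U A ω))) ↔
            ∀ q, q₀ < q → LocBdd μ s q (a / q)))) ∧
    (∀ (Ω : Type) [MeasurableSpace Ω] (P : Measure Ω) (A : (Fin n → ℤ) → Set Ω) (W : ℝ → ℝ),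
      AntitoneOn W (Ici 0) → (RandomCubes P A fun k => W ‖k‖) →
      ∀ q : ℝ, 2 < q → q < 2 * (n + 1) / ((n : ℝ) - 1) →
        ((∃ C : ℝ, ∀ r, 1 ≤ r → W r ≤ C * r ^ (-(((n : ℝ) + 1) / 2 - ((n : ℝ) - 1) * q / 4))) →
          ∀ᵐ ω ∂P, Bdd (sigma n) 2 q (volume.restrict (U A ω))) ∧
        ((¬ ∃ C : ℝ, ∀ r, 1 ≤ r →
            W r ≤ C * r ^ (-(((n : ℝ) + 1) / 2 - ((n : ℝ) - 1) * q / 4))) →
          ∀ᵐ ω ∂P, ¬ Bdd (sigma n) 2 q (volume.restrict (U A ω)))) ∧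
    (SteinLocal n ↔
      ∀ (Ω : Type) [MeasurableSpace Ω] (P : Measure Ω) (A : (Fin n → ℤ) → Set Ω) (a : ℝ), 0 < a →
        a < 1 → (RandomCubes P A fun k => (1 + ‖k‖) ^ (-a)) →
        ∀ᵐ ω ∂P, ∀ q : ℝ, 2 * (n - a) / ((n : ℝ) - 1) < q →
          Bdd (sigma n) ∞ q (volume.restrict (U A ω))) := by
  refine ⟨fun μ _ γ hγ hD Ω _ P A => ⟨fun w a c hA ha hw => ?_, fun a ha hA =>
    part2 μ γ hγ hD P A a ha hA⟩, fun Ω _ P A W hW hA q hq2 hq =>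
    part3 hn P A W hW hA q hq2 hq, part4 hn⟩
  filter_upwards [tr μ γ hγ hD P A w a c hA ha hw] with ω hω
  intro q hq
  have hq0 : 0 < q := by linarith
  obtain ⟨C, hC⟩ := hω q hq
  refine ⟨C ^ (1 / q), fun f hf => ?_⟩
  rw [en_eq q hq0, en_eq q hq0]
  exact ⟨norm_of_pow (by linarith) (hC f hf).1, norm_of_pow (by linarith) (hC f hf).2⟩

end Pool.Agent.Results.MP_6cbfb8_an.RandomSets
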